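import Pool.Agent.H966.T1.A3
import Pool.Graph.R_pool_sql_team_seeded_3dad9d7b.NH38.Fork.R2
import Pool.Graph.R_pool_sql_team_seeded_3dad9d7b.NH38.Fork.R3
import Pool.Graph.R_pool_sql_team_seeded_3dad9d7b.NH38.Fork.R4a

set_option autoImplicit false

/-!
# The sharp rate, both inner walls, odd widths of the arms: the uniform estimate (helper966).
Adapted from `NH38.Fork.R4a` (helper81).
-/

namespace Pool.Agent.H966.N1

open Polynomial Filter Topology Finset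
open Pool.Agent.NH38.Step (cardy)
open Pool.Agent.NH38.Fork
open Pool.Agent.NH38.Fork.R4 (Rl SE small cK_pos cM_pos rf_pos exp_le)
open Pool.Agent.H966.T1
open Pool.Agent.H966.T1.A3 (hf M1_pos kap_pos hf_nonneg nj_eq)

/-! ## constants -/

/-- the limit of `M1 m / 9 * m^(4/3)` -/
noncomputable def cN : ℝ := 1/27 * (Real.Gamma 4 / Real.Gamma (3/2) * (Real.Gamma (13/6) / Real.Gamma (10/3)))

/-- the limit of `nj N 0 * N^(4/3)` -/
noncomputable def c4 : ℝ := (2:ℝ)^((4:ℝ)/3) * cN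

lemma cN_pos : 0 < cN := by
  unfold cN
  have p1 : 0 < Real.Gamma 4 := Real.Gamma_pos_of_pos (by norm_num)
  have p2 : 0 < Real.Gamma (3/2) := Real.Gamma_pos_of_pos (by norm_num)
  have p3 : 0 < Real.Gamma (13/6) := Real.Gamma_pos_of_pos (by norm_num)
  have p4 : 0 < Real.Gamma (10/3) := Real.Gamma_pos_of_pos (by norm_num)
  positivity

lemma c4_pos : 0 < c4 := by
  unfold c4
  have := cN_pos
  positivity

lemma cR_pos : 0 < cR := by
  unfold cR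
  have := cM_pos
  positivity

/-- `M1` with error term -/
theorem M1E : ∃ C : ℝ, ∀ n : ℕ, 1 ≤ n →
    |((M1 n / 9 : ℚ) : ℝ) - cN * (n:ℝ)^(-(4:ℝ)/3)| ≤ C * (n:ℝ)^(-(4:ℝ)/3) / n := by
  obtain ⟨C1, hC1, h1⟩ := R2.rn_bd (s := 3/2) (t := 4) (by norm_num) (by norm_num)
  obtain ⟨C2, hC2, h2⟩ := R2.rn_bd (s := 10/3) (t := 13/6) (by norm_num) (by norm_num)
  set c1 := Real.Gamma 4 / Real.Gamma (3/2) with hc1
  set c2 := Real.Gamma (13/6) / Real.Gamma (10/3) with hc2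
  have q1 : 0 < c1 := div_pos (Real.Gamma_pos_of_pos (by norm_num)) (Real.Gamma_pos_of_pos (by norm_num))
  have q2 : 0 < c2 := div_pos (Real.Gamma_pos_of_pos (by norm_num)) (Real.Gamma_pos_of_pos (by norm_num))
  have hM : cN = 1/27 * (c1 * c2) := rfl
  refine ⟨1/27 * (C1 * (c2 + C2) + c1 * C2), fun n hn => ?_⟩
  have hn0 : (0:ℝ) < n := by exact_mod_cast hn
  have hn1 : (1:ℝ) ≤ n := by exact_mod_cast hn
  have hp : (0:ℝ) < (n:ℝ)^(-(4:ℝ)/3) := Real.rpow_pos_of_pos hn0 _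
  have e1 : ((M1 n / 9 : ℚ) : ℝ) = 1/27 * (R2.rn (3/2) 4 n * R2.rn (10/3) (13/6) n) *
      (n:ℝ)^(-(4:ℝ)/3) := by
    rw [Rat.cast_div, A3.M1_eq, R2.rn, R2.rn]
    have e2 : (n:ℝ)^((4:ℝ) - 3/2) * (n:ℝ)^((13:ℝ)/6 - 10/3) * (n:ℝ)^(-(4:ℝ)/3) = 1 := by
      rw [← Real.rpow_add hn0, ← Real.rpow_add hn0]
      norm_num
    push_cast
    linear_combination (- (1/27 * (N5.Rat (3/2) 4 n * N5.Rat (10/3) (13/6) n))) * e2
  have a1 := h1 n hn
  have a2 := h2 n hn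
  set r1 := R2.rn (3/2) 4 n
  set r2 := R2.rn (10/3) (13/6) n
  have b2 : |r2| ≤ c2 + C2 := by
    have h3 : |r2 - c2| ≤ C2 := a2.trans (div_le_self hC2 hn1)
    have h4 := abs_add_le (r2 - c2) c2
    rw [sub_add_cancel, abs_of_pos q2] at h4
    linarith
  have e3 : ((M1 n / 9 : ℚ) : ℝ) - cN * (n:ℝ)^(-(4:ℝ)/3) =
      1/27 * ((r1 - c1) * r2 + c1 * (r2 - c2)) * (n:ℝ)^(-(4:ℝ)/3) := by
    rw [e1, hM]; ring
  rw [e3, abs_mul, abs_of_pos hp]
  have b3 : |1/27 * ((r1 - c1) * r2 + c1 * (r2 - c2))| ≤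
      1/27 * (C1 * (c2 + C2) + c1 * C2) / n := by
    rw [abs_mul, abs_of_pos (by norm_num : (0:ℝ) < 1/27)]
    have h4 := abs_add_le ((r1 - c1) * r2) (c1 * (r2 - c2))
    rw [abs_mul, abs_mul, abs_of_pos q1] at h4
    have h5 : |r1 - c1| * |r2| ≤ C1 / n * (c2 + C2) :=
      mul_le_mul a1 b2 (abs_nonneg _) (by positivity)
    have h6 : c1 * |r2 - c2| ≤ c1 * (C2 / n) := mul_le_mul_of_nonneg_left a2 q1.le
    calc _ ≤ 1/27 * (C1 / n * (c2 + C2) + c1 * (C2 / n)) := by linarith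
      _ = _ := by ring
  calc _ ≤ 1/27 * (C1 * (c2 + C2) + c1 * C2) / n * (n:ℝ)^(-(4:ℝ)/3) :=
        mul_le_mul_of_nonneg_right b3 hp.le
    _ = _ := by ring

/-- from an error bound to a limit -/
lemma lim_of_err {f : ℕ → ℝ} {p c C : ℝ} (h : ∀ n : ℕ, 1 ≤ n →
    |f n - c * (n:ℝ)^p| ≤ C * (n:ℝ)^p / n) :
    Tendsto (fun n : ℕ => f n * (n:ℝ)^(-p)) atTop (𝓝 c) := by
  have h0 : Tendsto (fun n : ℕ => C / (n:ℝ)) atTop (𝓝 0) :=
    tendsto_const_div_atTop_nhds_zero_nat C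
  rw [tendsto_iff_norm_sub_tendsto_zero]
  refine squeeze_zero' (Eventually.of_forall fun n => norm_nonneg _) ?_ h0
  filter_upwards [eventually_ge_atTop 1] with n hn
  have hn0 : (0:ℝ) < n := by exact_mod_cast hn
  have e : (n:ℝ)^p * (n:ℝ)^(-p) = 1 := by
    rw [← Real.rpow_add hn0, add_neg_cancel, Real.rpow_zero]
  have hp : (0:ℝ) < (n:ℝ)^(-p) := Real.rpow_pos_of_pos hn0 _
  rw [Real.norm_eq_abs]
  have e2 : f n * (n:ℝ)^(-p) - c = (f n - c * (n:ℝ)^p) * (n:ℝ)^(-p) := by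
    linear_combination c * e
  rw [e2, abs_mul, abs_of_pos hp]
  calc _ ≤ C * (n:ℝ)^p / n * (n:ℝ)^(-p) := mul_le_mul_of_nonneg_right (h n hn) hp.le
    _ = C / n * ((n:ℝ)^p * (n:ℝ)^(-p)) := by ring
    _ = C / n := by rw [e, mul_one]

/-- the relation between the constants -/
theorem cKcN : cK * cK * cN = (2 * (1/2) * (1/2) : ℝ)^((2:ℝ)/3) * (3 / (2*Bt)) := by
  obtain ⟨C1, h1⟩ := t_KE
  obtain ⟨C2, h2⟩ := M1E
  have l1 := lim_of_err h1
  have l2 := lim_of_err h2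
  have hid : Tendsto (fun i : ℕ => ((i:ℕ) : ℝ) / ((i:ℕ):ℝ)) atTop (𝓝 (2*(1/2))) := by
    have : Tendsto (fun _ : ℕ => (1:ℝ)) atTop (𝓝 (2*(1/2))) := by
      norm_num
    refine this.congr' ?_
    filter_upwards [eventually_ge_atTop 1] with n hn
    have hn0 : (n:ℝ) ≠ 0 := by
      have : 0 < n := hn
      positivity
    field_simp
  have l3 := A3.const_lim (fun i => i) (fun i => i) (fun i => i) (1/2) (1/2) (by norm_num)
    (by norm_num) tendsto_id tendsto_id tendsto_id hid hid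
  refine tendsto_nhds_unique ?_ l3
  refine ((l1.mul l1).mul l2).congr' ?_
  filter_upwards [eventually_ge_atTop 1] with n hn
  have hn0 : (0:ℝ) < n := by exact_mod_cast hn
  have e : (n:ℝ)^(-((2:ℝ)/3)) * (n:ℝ)^(-((2:ℝ)/3)) * (n:ℝ)^(-(-(4:ℝ)/3)) = 1 := by
    rw [← Real.rpow_add hn0, ← Real.rpow_add hn0]
    norm_num
  push_cast
  linear_combination (((kap n : ℚ) : ℝ) * ((kap n : ℚ) : ℝ) * (((M1 n : ℚ) : ℝ) / 9)) * e

theorem cKc4 : cK * c4 = cR := by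
  have h := cKcN
  have h2 := R4.cKM
  have hK := cK_pos
  have hB : (0:ℝ) < Bt := by
    have h3 : 0 < cK * cM := mul_pos cK_pos cM_pos
    rw [h2] at h3
    by_contra hc
    push Not at hc
    have := div_nonpos_of_nonneg_of_nonpos (by norm_num : (0:ℝ) ≤ 3) hc
    linarith
  have e1 : (2 * (1/2) * (1/2) : ℝ)^((2:ℝ)/3) = (2:ℝ)^(-(2:ℝ)/3) := by
    rw [show (2 * (1/2) * (1/2) : ℝ) = 2⁻¹ by norm_num, Real.inv_rpow (by norm_num),
      ← Real.rpow_neg (by norm_num)]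
    norm_num
  have e2 : (3 / (2*Bt) : ℝ) = 1/2 * (cK * cM) := by
    rw [h2]
    field_simp
  rw [e1, e2] at h
  have h4 : cK * cN = (2:ℝ)^(-(2:ℝ)/3) * (1/2 * cM) := by
    have : cK * (cK * cN) = cK * ((2:ℝ)^(-(2:ℝ)/3) * (1/2 * cM)) := by linear_combination h
    exact mul_left_cancel₀ hK.ne' this
  unfold c4 cR
  have e3 : (2:ℝ)^((4:ℝ)/3) * (2:ℝ)^(-(2:ℝ)/3) * (1/2) = (2:ℝ)^(-(1:ℝ)/3) := by
    rw [show (1/2:ℝ) = (2:ℝ)^(-(1:ℝ)) by norm_num [Real.rpow_neg_one], ← Real.rpow_add (by norm_num),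
      ← Real.rpow_add (by norm_num)]
    norm_num
  linear_combination (2:ℝ)^((4:ℝ)/3) * h4 + cM * e3

theorem cKKc4 : cK * cK * c4 = (2:ℝ)^((2:ℝ)/3) * (3 / (2*Bt)) := by
  have h := cKc4
  have h2 := R4.cKM
  have e1 : (2:ℝ)^(-(1:ℝ)/3) = (2:ℝ)^((2:ℝ)/3) * (1/2) := by
    rw [show (1/2:ℝ) = (2:ℝ)^(-(1:ℝ)) by norm_num [Real.rpow_neg_one], ← Real.rpow_add (by norm_num)]
    norm_num
  have e3 : (3 / (2*Bt) : ℝ) = 1/2 * (3 / Bt) := by
    rw [div_mul_eq_div_div]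
    ring
  rw [e3, ← h2]
  unfold cR at h
  rw [e1] at h
  linear_combination cK * h

/-! ## the masses -/

lemma hf_rl {N j i : ℕ} (hj : (j+1)^2 ≤ N) (hi : i < j) (hN : 36 ≤ N) :
    Rl (1 + 12 / (N:ℝ)) ((hf N i : ℚ) : ℝ)
      (4 * ((2/3 + (i:ℝ)) * (4/3 + i)) / (N:ℝ)^2) := by
  have hi0 : (0:ℝ) ≤ i := Nat.cast_nonneg i
  have h1 : ((i:ℝ) + 1) ≤ j := by exact_mod_cast hi
  have h2 : ((j:ℝ) + 1)^2 ≤ N := by exact_mod_cast hj
  have hN' : (36:ℝ) ≤ N := by exact_mod_cast hN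
  set y : ℝ := (N:ℝ) with hy
  have hy0 : 0 < y := by linarith
  have h4 : 6 * ((i:ℝ) + 2) ≤ y := by
    have h3 : ((i:ℝ) + 2)^2 ≤ y := by
      calc ((i:ℝ) + 2)^2 ≤ ((j:ℝ) + 1)^2 := by
            apply pow_le_pow_left₀ (by positivity); linarith
        _ ≤ y := h2
    by_cases hc : 6 ≤ (i:ℝ) + 2
    · nlinarith
    · push Not at hc
      linarith
  have h5 : ((i:ℝ) + 2)^2 ≤ y := by
    calc ((i:ℝ) + 2)^2 ≤ ((j:ℝ) + 1)^2 := by
          apply pow_le_pow_left₀ (by positivity); linarith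
      _ ≤ y := h2
  set d : ℝ := (y - 3 - 2*i) * (y + 4 + 2*i) with hd
  have hd1 : y / 2 ≤ y - 3 - 2*i := by linarith
  have hd2 : y^2 / 2 ≤ d := by
    rw [hd]
    have h6 : y / 2 * y ≤ (y - 3 - 2*i) * (y + 4 + 2*i) :=
      mul_le_mul hd1 (by linarith) hy0.le (by linarith)
    linarith
  have hd0 : 0 < d := lt_of_lt_of_le (by positivity) hd2
  set u : ℝ := 4 * ((2/3 + (i:ℝ)) * (4/3 + i)) with hu
  have hu0 : 0 ≤ u := by positivity
  have e1 : ((hf N i : ℚ) : ℝ) = u / d := by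
    unfold hf
    push_cast
    rw [hd, hu]
    congr 1
    ring
  have e4 : 1 + 12 / y - 1 = 12 / y := by ring
  refine ⟨?_, by positivity⟩
  rw [e1, e4]
  have h6 : |y^2 - d| ≤ 6 * y := by
    have e5 : y^2 - d = (3 + 2*i) * (4 + 2*i) - y := by rw [hd]; ring
    rw [e5, abs_le]
    constructor
    · nlinarith
    · nlinarith
  have e6 : u / d - u / y^2 = (y^2 - d) * (u / (d * y^2)) := by
    field_simp
  rw [e6, abs_mul, abs_of_nonneg (by positivity : 0 ≤ u / (d * y^2))]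
  calc |y^2 - d| * (u / (d * y^2)) ≤ (6 * y) * (u / (d * y^2)) :=
        mul_le_mul_of_nonneg_right h6 (by positivity)
    _ = (6 * y / d) * (u / y^2) := by field_simp
    _ ≤ (12 / y) * (u / y^2) := by
        apply mul_le_mul_of_nonneg_right _ (by positivity)
        rw [div_le_div_iff₀ hd0 hy0]
        nlinarith

/-- the masses divided by `M1` -/
lemma H_rl {N j : ℕ} (hj : (j+1)^2 ≤ N) (hN : 36 ≤ N) :
    Rl (1 + 12 * Real.exp 12 * j / (N:ℝ)) (∏ i ∈ range j, ((hf N i : ℚ) : ℝ))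
      (4^j * (rf (2/3) j * rf (4/3) j) / (N:ℝ)^(2*j)) := by
  have h1 := Rl.prod (e := 1 + 12 / (N:ℝ)) (le_add_of_nonneg_right (by positivity)) j
    (fun i hi => hf_rl hj hi hN)
  rw [Finset.prod_div_distrib, Finset.prod_mul_distrib,
    Finset.prod_mul_distrib, Finset.prod_const, Finset.prod_const, Finset.card_range, ← pow_mul] at h1
  have hN0 : (36:ℝ) ≤ N := by exact_mod_cast hN
  have h2 : (1 + 12 / (N:ℝ))^j ≤ 1 + 12 * Real.exp 12 * j / (N:ℝ) := by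
    have h3 : (1 + 12 / (N:ℝ)) ≤ Real.exp (12 / (N:ℝ)) := by
      have := Real.add_one_le_exp (12 / (N:ℝ))
      linarith
    have h4 : (1 + 12 / (N:ℝ))^j ≤ Real.exp (12 / (N:ℝ))^j :=
      pow_le_pow_left₀ (by positivity) h3 j
    rw [← Real.exp_nat_mul] at h4
    have h5 : (j:ℝ) ≤ N := by
      have : ((j:ℝ) + 1)^2 ≤ N := by exact_mod_cast hj
      have h0 : (0:ℝ) ≤ j := Nat.cast_nonneg j
      nlinarith
    set x : ℝ := (j:ℝ) * (12 / (N:ℝ)) with hx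
    have hx0 : 0 ≤ x := by positivity
    have hx8 : x ≤ 12 := by
      rw [hx, mul_div_assoc', div_le_iff₀ (by linarith)]
      nlinarith
    have h6 := exp_le hx0
    have h7 : x * Real.exp x ≤ x * Real.exp 12 :=
      mul_le_mul_of_nonneg_left (Real.exp_le_exp.2 hx8) hx0
    have h8 : x * Real.exp 12 = 12 * Real.exp 12 * j / (N:ℝ) := by
      rw [hx]; ring
    linarith
  exact h1.mono h2

/-! ## the terms of the series -/

/-- coefficients of Appell's function `F_4(2/3, 4/3; 2/3, 2/3; A, B)` -/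
noncomputable def ep (A B : ℝ) (m : ℕ) : ℝ := ∑ i ∈ Finset.range (m+1),
  rf (2/3) m * rf (4/3) m / (rf (2/3) i * (Nat.factorial i : ℝ) * (rf (2/3) (m-i) *
    (Nat.factorial (m-i) : ℝ))) * B^i * A^(m-i)

/-- the main term -/
noncomputable def mainF (j : ℕ) (x y : ℝ) : ℝ :=
  (2*x*y)^((2:ℝ)/3) * (3 / (2*Bt)) * ap1 (x^2) (y^2) j

/-- the correction -/
noncomputable def corrF (j : ℕ) (x y : ℝ) : ℝ :=
  cR * (y^((2:ℝ)/3) * wp (y^2) (x^2) j + x^((2:ℝ)/3) * wp (x^2) (y^2) j)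

/-- the second correction -/
noncomputable def restF (j : ℕ) (x y : ℝ) : ℝ := c4 * ep (x^2) (y^2) j

/-- the exact form of the approximation -/
lemma Tm_eq {a b L : ℝ} (ha : 0 < a) (hb : 0 < b) (hL : 0 < L) (j : ℕ) :
    ∑ p ∈ antidiagonal j, ((b/2)^(2*p.1) * (cK * b^((2:ℝ)/3) / (rf (4/3) p.1 *
        (Nat.factorial p.1 : ℝ)) + 1 / (rf (2/3) p.1 * (Nat.factorial p.1 : ℝ)))) *
      ((a/2)^(2*p.2) * (cK * a^((2:ℝ)/3) / (rf (4/3) p.2 * (Nat.factorial p.2 : ℝ)) +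
        1 / (rf (2/3) p.2 * (Nat.factorial p.2 : ℝ)))) *
      ((c4 * L^(-(4:ℝ)/3)) * (4^j * (rf (2/3) j * rf (4/3) j) / L^(2*j))) =
    mainF j (a/L) (b/L) + L^(-(2:ℝ)/3) * (corrF j (a/L) (b/L) +
      L^(-(2:ℝ)/3) * restF j (a/L) (b/L)) := by
  have hLL : L^(-(4:ℝ)/3) = L^(-(2:ℝ)/3) * L^(-(2:ℝ)/3) := by
    rw [← Real.rpow_add hL]
    norm_num
  have dv : ∀ {x : ℝ}, 0 < x → (x/L)^((2:ℝ)/3) = x^((2:ℝ)/3) * L^(-(2:ℝ)/3) := fun {x} hx => by
    rw [Real.div_rpow hx.le hL.le, neg_div, Real.rpow_neg hL.le, div_eq_mul_inv]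
  have hm : (2*(a/L)*(b/L))^((2:ℝ)/3) = (2:ℝ)^((2:ℝ)/3) * (a/L)^((2:ℝ)/3) * (b/L)^((2:ℝ)/3) := by
    rw [Real.mul_rpow (by positivity) (by positivity), Real.mul_rpow (by norm_num) (by positivity)]
  have w1 : wp ((b/L)^2) ((a/L)^2) j = ∑ i ∈ Finset.range (j+1),
      rf (4/3) j * rf (2/3) j / (rf (4/3) i * (Nat.factorial i : ℝ) * (rf (2/3) (j-i) *
        (Nat.factorial (j-i) : ℝ))) * ((b/L)^2)^i * ((a/L)^2)^(j-i) := by
    unfold wp
    rw [← Finset.sum_range_reflect]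
    refine Finset.sum_congr rfl fun i hi => ?_
    have hij : i ≤ j := by
      rw [mem_range] at hi
      omega
    rw [show j + 1 - 1 - i = j - i by omega, show j - (j - i) = i by omega]
    ring
  unfold mainF corrF restF
  rw [w1]
  unfold ap1 wp ep
  rw [Finset.Nat.sum_antidiagonal_eq_sum_range_succ (fun x y =>
    ((b/2)^(2*x) * (cK * b^((2:ℝ)/3) / (rf (4/3) x *
        (Nat.factorial x : ℝ)) + 1 / (rf (2/3) x * (Nat.factorial x : ℝ)))) *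
      ((a/2)^(2*y) * (cK * a^((2:ℝ)/3) / (rf (4/3) y * (Nat.factorial y : ℝ)) +
        1 / (rf (2/3) y * (Nat.factorial y : ℝ)))) *
      ((c4 * L^(-(4:ℝ)/3)) * (4^j * (rf (2/3) j * rf (4/3) j) / L^(2*j)))) j]
  simp only [Finset.mul_sum, ← Finset.sum_add_distrib]
  refine Finset.sum_congr rfl fun i hi => ?_
  have hij : i ≤ j := by
    rw [mem_range] at hi
    omega
  have h3 : (b/2)^(2*i) * (a/2)^(2*(j-i)) * 4^j / L^(2*j) = ((b/L)^2)^i * ((a/L)^2)^(j-i) := by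
    have e1 : L^(2*j) = L^(2*i) * L^(2*(j-i)) := by
      rw [← pow_add]
      congr 1
      omega
    have e2 : (4:ℝ)^j = 2^(2*i) * 2^(2*(j-i)) := by
      rw [← pow_add, show (4:ℝ) = 2^2 by norm_num, ← pow_mul]
      congr 1
      omega
    rw [e1, e2, ← pow_mul, ← pow_mul, div_pow, div_pow, div_pow, div_pow]
    field_simp
  have k1 := cKc4
  have k2 := cKKc4
  set X1 : ℝ := rf (4/3) i * (Nat.factorial i : ℝ)
  set Y1 : ℝ := rf (2/3) i * (Nat.factorial i : ℝ)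
  set X2 : ℝ := rf (4/3) (j-i) * (Nat.factorial (j-i) : ℝ)
  set Y2 : ℝ := rf (2/3) (j-i) * (Nat.factorial (j-i) : ℝ)
  set R := rf (2/3) j * rf (4/3) j with hR
  calc _ = ((b/2)^(2*i) * (a/2)^(2*(j-i)) * 4^j / L^(2*j)) * (L^(-(4:ℝ)/3)) *
      ((cK * cK * c4) * (b^((2:ℝ)/3) * a^((2:ℝ)/3)) * (R / (X1 * X2)) +
        (cK * c4) * b^((2:ℝ)/3) * (R / (X1 * Y2)) + (cK * c4) * a^((2:ℝ)/3) * (R / (Y1 * X2)) +
        c4 * (R / (Y1 * Y2))) := by
        ring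
    _ = _ := by
        rw [h3, hm, dv ha, dv hb, hLL, k1, k2, hR]
        ring

end Pool.Agent.H966.N1
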