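import Pool.Agent.H966.N1.Ra

set_option autoImplicit false

/-!
# The sharp rate, both inner walls, odd widths of the arms: the uniform estimate, part 2 (helper966).
Adapted from `NH38.Fork.R4a` (helper81).
-/

namespace Pool.Agent.H966.N1

open Polynomial Filter Topology Finset
open Pool.Agent.NH38.Step (cardy)
open Pool.Agent.NH38.Fork
open Pool.Agent.NH38.Fork.R4 (Rl SE small cK_pos cM_pos rf_pos exp_le)
open Pool.Agent.H966.T1
open Pool.Agent.H966.T1.A3 (hf M1_pos kap_pos hf_nonneg nj_eq)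

lemma last {D C0 L X : ℝ} (k : ℕ) (hD : D = C0 * X^k / L) (hC0 : 0 ≤ C0) (hX : 1 ≤ X^k)
    (_hX0 : 0 ≤ X) (hL : 1 ≤ L) : (((1 + D) * (1 + D)) * ((1 + D) * (1 + D))) *
      (((1 + D) * (1 + D)) * (1 + D)) - 1 ≤ 7 * C0 * (1 + C0)^6 * X^(7*k) / L := by
  have hL0 : 0 < L := by linarith
  have hD0 : 0 ≤ D := by rw [hD]; positivity
  have h1 : (((1 + D) * (1 + D)) * ((1 + D) * (1 + D))) * (((1 + D) * (1 + D)) * (1 + D)) - 1 ≤
      7 * D * (1 + D)^6 := by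
    have h2 : 7 * D * (1 + D)^6 - ((((1 + D) * (1 + D)) * ((1 + D) * (1 + D))) *
        (((1 + D) * (1 + D)) * (1 + D)) - 1) =
        21*D^2 + 70*D^3 + 105*D^4 + 84*D^5 + 35*D^6 + 6*D^7 := by ring
    have h3 : 0 ≤ 21*D^2 + 70*D^3 + 105*D^4 + 84*D^5 + 35*D^6 + 6*D^7 := by positivity
    linarith
  have h2 : 1 + D ≤ (1 + C0) * X^k := by
    have h3 : D ≤ C0 * X^k := by
      rw [hD]
      exact div_le_self (by positivity) hL
    have h4 : (1 + C0) * X^k = X^k + C0 * X^k := by ring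
    rw [h4]
    linarith
  have h3 : (1 + D)^6 ≤ ((1 + C0) * X^k)^6 := pow_le_pow_left₀ (by positivity) h2 6
  calc _ ≤ 7 * D * (1 + D)^6 := h1
    _ ≤ 7 * D * ((1 + C0) * X^k)^6 := mul_le_mul_of_nonneg_left h3 (by positivity)
    _ = _ := by
      rw [hD, mul_pow, ← pow_mul]
      have h4 : X^(7*k) = X^k * X^(k*6) := by
        rw [← pow_add]
        congr 1
        ring
      rw [h4]
      ring

/-- the coefficients of `sv` -/
lemma sv_rl {k : ℕ} {Cs CK c C0 L : ℝ} (hCs : ∀ n l : ℕ, Odd n → (l+1)^2 ≤ n →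
    |(((sv n).coeff l : ℚ) : ℝ) - ((n:ℝ)/2)^(2*l) * (((kap n : ℚ) : ℝ) / (rf (4/3) l *
    (Nat.factorial l : ℝ)) + 1 / (rf (2/3) l * (Nat.factorial l : ℝ)))| ≤
    Cs * ((l:ℝ)+1)^k / n * (((kap n : ℚ) : ℝ) * ((n:ℝ)/2)^(2*l) / (rf (4/3) l *
      (Nat.factorial l : ℝ))))
    (hCK : ∀ n : ℕ, 1 ≤ n →
      |((kap n : ℚ) : ℝ) - cK * (n:ℝ)^((2:ℝ)/3)| ≤ CK * (n:ℝ)^((2:ℝ)/3) / n)
    (hc : 0 < c) (hL0 : 0 < L) {a j : ℕ} (ha : Odd a) (hca : c * L ≤ a) (hja : (j+1)^2 ≤ a)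
    (g1 : |Cs| / c ≤ C0) (g2 : |CK / cK| / c ≤ C0) (hC00 : 0 ≤ C0) :
    ∀ q ≤ j, Rl ((1 + C0 * ((j:ℝ)+1)^k / L) * (1 + C0 * ((j:ℝ)+1)^k / L))
      (((sv a).coeff q : ℚ) : ℝ)
      ((((a:ℕ):ℝ)/2)^(2*q) * (cK * (a:ℝ)^((2:ℝ)/3) / (rf (4/3) q * (Nat.factorial q : ℝ)) +
        1 / (rf (2/3) q * (Nat.factorial q : ℝ)))) := by
  have cK0 := cK_pos
  have ha0 : 0 < (a:ℝ) := lt_of_lt_of_le (mul_pos hc hL0) hca
  set D : ℝ := C0 * ((j:ℝ)+1)^k / L with hD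
  have hD0 : 0 ≤ D := by rw [hD]; positivity
  set e : ℝ := 1 + D with he
  have he1 : 1 ≤ e := by rw [he]; linarith
  have hkap : 0 < ((kap a : ℚ) : ℝ) := by exact_mod_cast kap_pos a
  have rk : Rl e ((kap a : ℚ) : ℝ) (cK * (a:ℝ)^((2:ℝ)/3)) := by
    refine ⟨?_, by positivity⟩
    have h1 := hCK a ha.pos
    rw [he, add_sub_cancel_left]
    refine h1.trans ?_
    have h2 : CK / cK * (((0:ℕ):ℝ)+1)^k / a ≤ D := small hc hL0 hca (Nat.zero_le j) g2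
    rw [Nat.cast_zero, zero_add, one_pow, mul_one] at h2
    calc CK * (a:ℝ)^((2:ℝ)/3) / a = CK / cK / a * (cK * (a:ℝ)^((2:ℝ)/3)) := by field_simp
      _ ≤ _ := mul_le_mul_of_nonneg_right h2 (by positivity)
  intro q hq
  have hq2 : (q+1)^2 ≤ a := (Nat.pow_le_pow_left (by omega) 2).trans hja
  have h1 := hCs a q ha hq2
  have hr := rf_pos (s := 2/3) (by norm_num) q
  have hr' := rf_pos (s := 4/3) (by norm_num) q
  have h2 : Rl e (((sv a).coeff q : ℚ) : ℝ) (((a:ℝ)/2)^(2*q) * (((kap a : ℚ) : ℝ) /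
      (rf (4/3) q * (Nat.factorial q : ℝ)) + 1 / (rf (2/3) q * (Nat.factorial q : ℝ)))) := by
    refine ⟨h1.trans ?_, by positivity⟩
    rw [he, add_sub_cancel_left]
    have h3 : Cs * ((q:ℝ)+1)^k / a ≤ D := small hc hL0 hca hq g1
    calc _ ≤ D * (((kap a : ℚ) : ℝ) * ((a:ℝ)/2)^(2*q) / (rf (4/3) q *
        (Nat.factorial q : ℝ))) := mul_le_mul_of_nonneg_right h3 (by positivity)
      _ ≤ _ := by
        apply mul_le_mul_of_nonneg_left _ hD0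
        have h4 : 0 ≤ ((a:ℝ)/2)^(2*q) * (1 / (rf (2/3) q * (Nat.factorial q : ℝ))) := by
          positivity
        rw [mul_add]
        calc _ = ((a:ℝ)/2)^(2*q) * (((kap a : ℚ) : ℝ) / (rf (4/3) q *
            (Nat.factorial q : ℝ))) := by ring
          _ ≤ _ := by linarith
  refine h2.trans ?_ he1
  apply Rl.const _ (by positivity)
  apply Rl.add
  · have h3 := rk.const (c := 1 / (rf (4/3) q * (Nat.factorial q : ℝ))) (by positivity)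
    rw [one_div_mul_eq_div, one_div_mul_eq_div] at h3
    exact h3
  · exact Rl.refl he1 (by positivity)

lemma U {k : ℕ} (hk : 1 ≤ k) (hs : SE k) {c : ℝ} (hc : 0 < c) : ∃ C1 : ℝ, 0 ≤ C1 ∧
    ∀ a b N j : ℕ, Odd a → Odd b → Even N → a + b < N →
    c * (N:ℝ) ≤ a → c * (N:ℝ) ≤ b → 36 ≤ N → (j+1)^2 ≤ a → (j+1)^2 ≤ b →
    |(((sv a * sv b).coeff j * nj N j : ℚ) : ℝ) - (mainF j ((a:ℝ)/N) ((b:ℝ)/N) +
      (N:ℝ)^(-(2:ℝ)/3) * (corrF j ((a:ℝ)/N) ((b:ℝ)/N) + (N:ℝ)^(-(2:ℝ)/3) *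
        restF j ((a:ℝ)/N) ((b:ℝ)/N)))| ≤
    C1 * ((j:ℝ)+1)^(7*k) / N * (mainF j ((a:ℝ)/N) ((b:ℝ)/N) +
      (N:ℝ)^(-(2:ℝ)/3) * (corrF j ((a:ℝ)/N) ((b:ℝ)/N) + (N:ℝ)^(-(2:ℝ)/3) *
        restF j ((a:ℝ)/N) ((b:ℝ)/N))) := by
  obtain ⟨Cs, hCs⟩ := hs
  obtain ⟨CK, hCK⟩ := t_KE
  obtain ⟨CM, hCM⟩ := M1E
  have cK0 := cK_pos
  have cN0 := cN_pos
  have c40 := c4_pos
  set C0 : ℝ := |Cs| / c + |CK / cK| / c + |CM / cN| / (1/4) + 32 + 12 * Real.exp 12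
    with hC0
  have p2 : 0 ≤ |Cs| / c := by positivity
  have p3 : 0 ≤ |CK / cK| / c := by positivity
  have p4 : 0 ≤ |CM / cN| / (1/4) := by positivity
  have p5 : 0 < 12 * Real.exp 12 := by positivity
  have hC00 : 0 ≤ C0 := by rw [hC0]; positivity
  refine ⟨7 * C0 * (1 + C0)^6, by positivity, ?_⟩
  intro a b N j ha hb hN hab hca hcb hn hja hjb
  set L : ℝ := (N:ℝ) with hL
  have hn' : (36:ℝ) ≤ L := by rw [hL]; exact_mod_cast hn
  have hL0 : 0 < L := by linarith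
  have hL1 : 1 ≤ L := by linarith
  have ha0 : 0 < (a:ℝ) := lt_of_lt_of_le (mul_pos hc hL0) hca
  have hb0 : 0 < (b:ℝ) := lt_of_lt_of_le (mul_pos hc hL0) hcb
  have hj0 : (0:ℝ) ≤ j := Nat.cast_nonneg j
  have hjn : (j+1)^2 ≤ N := by omega
  set D : ℝ := C0 * ((j:ℝ)+1)^k / L with hD
  have hD0 : 0 ≤ D := by rw [hD]; positivity
  set e : ℝ := 1 + D with he
  have he1 : 1 ≤ e := by rw [he]; linarith
  have hjk : (1:ℝ) ≤ ((j:ℝ)+1)^k := one_le_pow₀ (by linarith)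
  have hjk2 : (j:ℝ) + 1 ≤ ((j:ℝ)+1)^k := by
    calc (j:ℝ) + 1 = ((j:ℝ)+1)^1 := (pow_one _).symm
      _ ≤ _ := pow_le_pow_right₀ (by linarith) hk
  -- the coefficients of `sv`
  have rsa := sv_rl hCs hCK hc hL0 ha hca hja (C0 := C0) (by linarith) (by linarith) hC00
  have rsb := sv_rl hCs hCK hc hL0 hb hcb hjb (C0 := C0) (by linarith) (by linarith) hC00
  rw [← hD, ← he] at rsa rsb
  -- the mass
  obtain ⟨m, hm⟩ : ∃ m : ℕ, m = (N - 4) / 2 := ⟨_, rfl⟩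
  have hNm : (L:ℝ) = 2 * m + 4 := by
    obtain ⟨z, hz⟩ := hN
    have : N = 2 * m + 4 := by omega
    rw [hL, this]
    push_cast
    ring
  have hm1 : 1 ≤ m := by omega
  have hm16 : (16:ℝ) ≤ m := by linarith
  have hM0 : 0 < ((M1 m : ℚ) : ℝ) := by exact_mod_cast M1_pos m
  have rm : Rl (e * e) ((M1 m / 9 : ℚ) : ℝ) (c4 * L^(-(4:ℝ)/3)) := by
    have hn0 : (0:ℝ) < m := by linarith
    have h1 : Rl e ((M1 m / 9 : ℚ) : ℝ) (cN * (m:ℝ)^(-(4:ℝ)/3)) := by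
      refine ⟨?_, by positivity⟩
      have h1 := hCM m hm1
      rw [he, add_sub_cancel_left]
      refine h1.trans ?_
      have h2 : CM / cN * (((0:ℕ):ℝ)+1)^k / m ≤ D :=
        small (c := 1/4) (by norm_num) hL0 (by linarith) (Nat.zero_le j) (by linarith)
      rw [Nat.cast_zero, zero_add, one_pow, mul_one] at h2
      calc CM * (m:ℝ)^(-(4:ℝ)/3) / m = CM / cN / m * (cN * (m:ℝ)^(-(4:ℝ)/3)) := by field_simp
        _ ≤ _ := mul_le_mul_of_nonneg_right h2 (by positivity)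
    refine h1.trans ?_ he1
    have hy0 : 0 < L/2 := by positivity
    have e0 : c4 * L^(-(4:ℝ)/3) = cN * (L/2)^(-(4:ℝ)/3) := by
      unfold c4
      rw [Real.div_rpow hL0.le (by norm_num), neg_div, Real.rpow_neg (by norm_num : (0:ℝ) ≤ 2),
        div_inv_eq_mul]
      ring
    rw [e0]
    apply Rl.const _ cN0.le
    refine ⟨?_, by positivity⟩
    have h2 : (m:ℝ)^(-(4:ℝ)/3) = (L/2)^(-(4:ℝ)/3) * ((L/2)/m)^((4:ℝ)/3) := by
      rw [Real.div_rpow hy0.le hn0.le, neg_div, Real.rpow_neg hy0.le, Real.rpow_neg hn0.le]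
      have h3 : (L/2)^((4:ℝ)/3) ≠ 0 := (Real.rpow_pos_of_pos hy0 _).ne'
      field_simp
    have h3 : 1 ≤ (L/2)/m := by
      rw [le_div_iff₀ hn0, hNm]
      linarith
    have h4 : ((L/2)/m)^((4:ℝ)/3) ≤ ((L/2)/m)^2 := by
      calc ((L/2)/m)^((4:ℝ)/3) ≤ ((L/2)/m)^(2:ℝ) :=
            Real.rpow_le_rpow_of_exponent_le h3 (by norm_num)
        _ = _ := by norm_num
    have h5 : 1 ≤ ((L/2)/m)^((4:ℝ)/3) := Real.one_le_rpow h3 (by norm_num)
    have h6 : ((L/2)/m)^2 - 1 ≤ D := by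
      have h7 : (L/2)/m = 1 + 2 / m := by
        rw [hNm]
        field_simp
        ring
      rw [h7]
      have h8 : (1 + 2 / (m:ℝ))^2 - 1 ≤ 32 / L := by
        have e1 : (1 + 2 / (m:ℝ))^2 - 1 = (4 * m + 4) / (m:ℝ)^2 := by
          field_simp
          ring
        rw [e1, div_le_div_iff₀ (by positivity) hL0, hNm]
        nlinarith
      refine h8.trans ?_
      rw [hD]
      apply div_le_div_of_nonneg_right _ hL0.le
      have h9 : (32:ℝ) ≤ C0 := by linarith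
      calc (32:ℝ) ≤ C0 * 1 := by linarith
        _ ≤ C0 * ((j:ℝ)+1)^k := mul_le_mul_of_nonneg_left hjk hC00
    rw [h2]
    have e1 : (L/2)^(-(4:ℝ)/3) * ((L/2)/m)^((4:ℝ)/3) - (L/2)^(-(4:ℝ)/3) =
        (((L/2)/m)^((4:ℝ)/3) - 1) * (L/2)^(-(4:ℝ)/3) := by ring
    rw [e1, abs_mul, abs_of_nonneg (by linarith), abs_of_nonneg (by positivity : (0:ℝ) ≤
      (L/2)^(-(4:ℝ)/3)), he, add_sub_cancel_left]
    apply mul_le_mul_of_nonneg_right _ (by positivity)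
    linarith
  have rh : Rl e (∏ i ∈ range j, ((hf N i : ℚ) : ℝ))
      (4^j * (rf (2/3) j * rf (4/3) j) / L^(2*j)) := by
    have h1 := H_rl hjn hn
    rw [← hL] at h1
    apply h1.mono
    rw [he, hD]
    have h3 : 12 * Real.exp 12 * j / L ≤ C0 * ((j:ℝ)+1)^k / L := by
      apply div_le_div_of_nonneg_right _ hL0.le
      have h4 : 12 * Real.exp 12 ≤ C0 := by linarith
      exact mul_le_mul h4 (by linarith) hj0 hC00
    linarith
  -- assembly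
  have e1 : (((sv a * sv b).coeff j * nj N j : ℚ) : ℝ) = ∑ p ∈ antidiagonal j,
      (((sv b).coeff p.1 : ℚ) : ℝ) * (((sv a).coeff p.2 : ℚ) : ℝ) *
      (((M1 m / 9 : ℚ) : ℝ) * (∏ i ∈ range j, ((hf N i : ℚ) : ℝ))) := by
    rw [nj_eq, ← hm, mul_comm (sv a) (sv b), Polynomial.coeff_mul, Finset.sum_mul, Rat.cast_sum]
    refine Finset.sum_congr rfl fun p _ => ?_
    push_cast
    ring
  have rt : Rl (((e * e) * (e * e)) * ((e * e) * e)) (((sv a * sv b).coeff j * nj N j : ℚ) : ℝ)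
      (mainF j ((a:ℝ)/L) ((b:ℝ)/L) + L^(-(2:ℝ)/3) * (corrF j ((a:ℝ)/L) ((b:ℝ)/L) +
        L^(-(2:ℝ)/3) * restF j ((a:ℝ)/L) ((b:ℝ)/L))) := by
    rw [e1, ← Tm_eq ha0 hb0 hL0 j]
    apply Rl.sum
    intro p hp
    have hp' : p.1 + p.2 = j := by simpa using hp
    have hee : 1 ≤ e * e := one_le_mul_of_one_le_of_one_le he1 he1
    have h1 := (rsb p.1 (by omega)).mul (rsa p.2 (by omega)) hee hee
    have h2 := rm.mul rh hee he1
    exact h1.mul h2 (one_le_mul_of_one_le_of_one_le hee hee)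
      (one_le_mul_of_one_le_of_one_le hee he1)
  refine rt.1.trans ?_
  apply mul_le_mul_of_nonneg_right _ rt.2
  have h1 := last k hD hC00 hjk (by linarith) hL1
  rw [← he] at h1
  exact h1

end Pool.Agent.H966.N1
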