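import Pool.Agent.H966.N1.Rb
import Pool.Graph.R_pool_sql_team_seeded_3dad9d7b.NH38.Fork.NG3
import Pool.Graph.R_pool_sql_team_seeded_3dad9d7b.NH38.Fork.R4
import Pool.Graph.R_pool_sql_team_seeded_3dad9d7b.NH38.Fork.UG

set_option autoImplicit false

/-!
# The sharp rate, both inner walls, odd widths of the arms (helper966).
Adapted from `NH38.Fork.R4` (helper81).
-/

namespace Pool.Agent.H966.N1

open Polynomial Filter Topology Finset
open Pool.Agent.NH38.Step (cardy)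
open Pool.Agent.NH38.Fork
open Pool.Agent.NH38.Fork.R4 (Rl SE small cK_pos cM_pos rf_pos exp_le Bt_pos)
open Pool.Agent.H966.T1
open Pool.Agent.H966.T1.A3 (hf M1_pos kap_pos hf_nonneg nj_eq nj_nonneg nj_le)

/-! ## monotonicity and homogeneity -/

lemma ap1_nonneg {A B : ℝ} (hA : 0 ≤ A) (hB : 0 ≤ B) (m : ℕ) : 0 ≤ ap1 A B m := by
  unfold ap1
  refine Finset.sum_nonneg fun i _ => ?_
  have h1 := rf_pos (s := 2/3) (by norm_num) m
  have h2 := rf_pos (s := 4/3) (by norm_num) m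
  have h3 := rf_pos (s := 4/3) (by norm_num) i
  have h4 := rf_pos (s := 4/3) (by norm_num) (m - i)
  positivity

lemma wp_nonneg {A B : ℝ} (hA : 0 ≤ A) (hB : 0 ≤ B) (m : ℕ) : 0 ≤ wp A B m := by
  unfold wp
  refine Finset.sum_nonneg fun i _ => ?_
  have h1 := rf_pos (s := 2/3) (by norm_num) m
  have h2 := rf_pos (s := 4/3) (by norm_num) m
  have h3 := rf_pos (s := 2/3) (by norm_num) i
  have h4 := rf_pos (s := 4/3) (by norm_num) (m - i)
  positivity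

lemma ep_nonneg {A B : ℝ} (hA : 0 ≤ A) (hB : 0 ≤ B) (m : ℕ) : 0 ≤ ep A B m := by
  unfold ep
  refine Finset.sum_nonneg fun i _ => ?_
  have h1 := rf_pos (s := 2/3) (by norm_num) m
  have h2 := rf_pos (s := 4/3) (by norm_num) m
  have h3 := rf_pos (s := 2/3) (by norm_num) i
  have h4 := rf_pos (s := 2/3) (by norm_num) (m - i)
  positivity

lemma rf_cmp (j : ℕ) : rf (4/3) j ≤ ((j:ℝ)+1) * rf (2/3) j := by
  induction j with
  | zero => unfold rf; simp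
  | succ j ih =>
    have e1 : rf (4/3) (j+1) = rf (4/3) j * (4/3 + j) := by
      unfold rf; rw [Finset.prod_range_succ]
    have e2 : rf (2/3) (j+1) = rf (2/3) j * (2/3 + j) := by
      unfold rf; rw [Finset.prod_range_succ]
    rw [e1, e2]
    have h0 := rf_pos (s := 2/3) (by norm_num) j
    have hj : (0:ℝ) ≤ j := Nat.cast_nonneg j
    push_cast
    calc rf (4/3) j * (4/3 + j) ≤ (((j:ℝ)+1) * rf (2/3) j) * (4/3 + j) :=
          mul_le_mul_of_nonneg_right ih (by positivity)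
      _ ≤ _ := by
        have : ((j:ℝ)+1) * (4/3 + j) ≤ (j+1+1) * (2/3 + j) := by nlinarith
        nlinarith

lemma ep_le {A B : ℝ} (hA : 0 ≤ A) (hB : 0 ≤ B) (m : ℕ) : ep A B m ≤ ((m:ℝ)+1) * wp A B m := by
  unfold ep wp
  rw [Finset.mul_sum]
  refine Finset.sum_le_sum fun i hi => ?_
  have h1 := rf_pos (s := 2/3) (by norm_num) m
  have h2 := rf_pos (s := 4/3) (by norm_num) m
  have h3 := rf_pos (s := 2/3) (by norm_num) i
  have h4 := rf_pos (s := 2/3) (by norm_num) (m - i)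
  have h5 := rf_pos (s := 4/3) (by norm_num) (m - i)
  have h6 := rf_cmp (m - i)
  have h7 : (((m - i : ℕ) : ℝ) + 1) ≤ (m:ℝ) + 1 := by
    have : ((m - i : ℕ) : ℝ) ≤ m := by exact_mod_cast Nat.sub_le m i
    linarith
  have h8 : rf (4/3) (m-i) ≤ ((m:ℝ)+1) * rf (2/3) (m-i) :=
    h6.trans (mul_le_mul_of_nonneg_right h7 h4.le)
  have h9 : (1:ℝ) / rf (2/3) (m-i) ≤ ((m:ℝ)+1) / rf (4/3) (m-i) := by
    rw [div_le_div_iff₀ h4 h5]
    linarith
  have hm : (0:ℝ) < (m:ℝ) + 1 := by positivity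
  calc _ = (rf (2/3) m * rf (4/3) m / (rf (2/3) i * (Nat.factorial i : ℝ) *
        (Nat.factorial (m-i) : ℝ)) * B^i * A^(m-i)) * (1 / rf (2/3) (m-i)) := by
        field_simp
    _ ≤ (rf (2/3) m * rf (4/3) m / (rf (2/3) i * (Nat.factorial i : ℝ) *
        (Nat.factorial (m-i) : ℝ)) * B^i * A^(m-i)) * (((m:ℝ)+1) / rf (4/3) (m-i)) :=
        mul_le_mul_of_nonneg_left h9 (by positivity)
    _ = _ := by
        field_simp

lemma ap1_mono {A B A' B' : ℝ} (hA : 0 ≤ A) (hB : 0 ≤ B) (hAA : A ≤ A') (hBB : B ≤ B') (m : ℕ) :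
    ap1 A B m ≤ ap1 A' B' m := by
  unfold ap1
  refine Finset.sum_le_sum fun i _ => ?_
  have h1 := rf_pos (s := 2/3) (by norm_num) m
  have h2 := rf_pos (s := 4/3) (by norm_num) m
  have h3 := rf_pos (s := 4/3) (by norm_num) i
  have h4 := rf_pos (s := 4/3) (by norm_num) (m - i)
  have hB' : 0 ≤ B' := hB.trans hBB
  gcongr

lemma wp_mono {A B A' B' : ℝ} (hA : 0 ≤ A) (hB : 0 ≤ B) (hAA : A ≤ A') (hBB : B ≤ B') (m : ℕ) :
    wp A B m ≤ wp A' B' m := by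
  unfold wp
  refine Finset.sum_le_sum fun i _ => ?_
  have h1 := rf_pos (s := 2/3) (by norm_num) m
  have h2 := rf_pos (s := 4/3) (by norm_num) m
  have h3 := rf_pos (s := 2/3) (by norm_num) i
  have h4 := rf_pos (s := 4/3) (by norm_num) (m - i)
  have hB' : 0 ≤ B' := hB.trans hBB
  gcongr

lemma ap1_scale (A B t : ℝ) (m : ℕ) : ap1 (t * A) (t * B) m = t^m * ap1 A B m := by
  unfold ap1
  rw [Finset.mul_sum]
  refine Finset.sum_congr rfl fun i hi => ?_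
  have h1 : t^m = t^i * t^(m-i) := by
    rw [← pow_add]
    congr 1
    rw [mem_range] at hi
    omega
  rw [h1, mul_pow, mul_pow]
  ring

lemma wp_scale (A B t : ℝ) (m : ℕ) : wp (t * A) (t * B) m = t^m * wp A B m := by
  unfold wp
  rw [Finset.mul_sum]
  refine Finset.sum_congr rfl fun i hi => ?_
  have h1 : t^m = t^i * t^(m-i) := by
    rw [← pow_add]
    congr 1
    rw [mem_range] at hi
    omega
  rw [h1, mul_pow, mul_pow]
  ring

lemma mainF_nonneg (j : ℕ) {x y : ℝ} (hx : 0 ≤ x) (hy : 0 ≤ y) : 0 ≤ mainF j x y := by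
  unfold mainF
  have := Bt_pos
  have := ap1_nonneg (sq_nonneg x) (sq_nonneg y) j
  positivity

lemma corrF_nonneg (j : ℕ) {x y : ℝ} (hx : 0 ≤ x) (hy : 0 ≤ y) : 0 ≤ corrF j x y := by
  unfold corrF
  have := cR_pos
  have := wp_nonneg (sq_nonneg x) (sq_nonneg y) j
  have := wp_nonneg (sq_nonneg y) (sq_nonneg x) j
  positivity

lemma restF_nonneg (j : ℕ) (x y : ℝ) : 0 ≤ restF j x y := by
  unfold restF
  have := c4_pos
  have := ep_nonneg (sq_nonneg x) (sq_nonneg y) j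
  positivity

/-- scaling of squares -/
lemma sq_le_scale {x x' s : ℝ} (hx : 0 ≤ x) (hxx : x ≤ s * x') : x^2 ≤ s^2 * x'^2 := by
  rw [← mul_pow]
  exact pow_le_pow_left₀ hx hxx 2

lemma wp_le_scale (j : ℕ) {x y x' y' s : ℝ} (hx : 0 ≤ x) (hy : 0 ≤ y) (hs : 0 ≤ s) (hs1 : s ≤ 1)
    (hxx : x ≤ s * x') (hyy : y ≤ s * y') :
    wp (x^2) (y^2) j ≤ s^j * wp (x'^2) (y'^2) j := by
  calc wp (x^2) (y^2) j ≤ wp (s^2 * x'^2) (s^2 * y'^2) j :=
        wp_mono (sq_nonneg _) (sq_nonneg _) (sq_le_scale hx hxx) (sq_le_scale hy hyy) j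
    _ = (s^2)^j * wp (x'^2) (y'^2) j := wp_scale _ _ _ j
    _ ≤ _ := by
      apply mul_le_mul_of_nonneg_right _ (wp_nonneg (sq_nonneg _) (sq_nonneg _) j)
      apply pow_le_pow_left₀ (by positivity)
      nlinarith

lemma mainF_le (j : ℕ) {x y x' y' s : ℝ} (hx : 0 ≤ x) (hy : 0 ≤ y) (hs : 0 ≤ s) (hs1 : s ≤ 1)
    (hxx : x ≤ s * x') (hyy : y ≤ s * y') (hx' : 0 ≤ x') (hy' : 0 ≤ y') :
    mainF j x y ≤ s^j * mainF j x' y' := by
  unfold mainF
  have hB := Bt_pos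
  have g1 : x ≤ x' := hxx.trans (by
    have : s * x' ≤ 1 * x' := mul_le_mul_of_nonneg_right hs1 hx'
    linarith)
  have g2 : y ≤ y' := hyy.trans (by
    have : s * y' ≤ 1 * y' := mul_le_mul_of_nonneg_right hs1 hy'
    linarith)
  have h1 : (2*x*y)^((2:ℝ)/3) ≤ (2*x'*y')^((2:ℝ)/3) := by
    apply Real.rpow_le_rpow (by positivity) _ (by norm_num)
    exact mul_le_mul (by linarith) g2 hy (by positivity)
  have h2 : ap1 (x^2) (y^2) j ≤ s^j * ap1 (x'^2) (y'^2) j := by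
    calc ap1 (x^2) (y^2) j ≤ ap1 (s^2 * x'^2) (s^2 * y'^2) j :=
          ap1_mono (sq_nonneg _) (sq_nonneg _) (sq_le_scale hx hxx) (sq_le_scale hy hyy) j
      _ = (s^2)^j * ap1 (x'^2) (y'^2) j := ap1_scale _ _ _ j
      _ ≤ _ := by
        apply mul_le_mul_of_nonneg_right _ (ap1_nonneg (sq_nonneg _) (sq_nonneg _) j)
        apply pow_le_pow_left₀ (by positivity)
        nlinarith
  calc (2*x*y)^((2:ℝ)/3) * (3 / (2*Bt)) * ap1 (x^2) (y^2) j
      ≤ (2*x'*y')^((2:ℝ)/3) * (3 / (2*Bt)) * (s^j * ap1 (x'^2) (y'^2) j) := by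
        apply mul_le_mul (mul_le_mul_of_nonneg_right h1 (by positivity)) h2
          (ap1_nonneg (sq_nonneg _) (sq_nonneg _) j) (by positivity)
    _ = _ := by ring

lemma corrF_le (j : ℕ) {x y x' y' s : ℝ} (hx : 0 ≤ x) (hy : 0 ≤ y) (hs : 0 ≤ s) (hs1 : s ≤ 1)
    (hxx : x ≤ s * x') (hyy : y ≤ s * y') (hx' : 0 ≤ x') (hy' : 0 ≤ y') :
    corrF j x y ≤ s^j * corrF j x' y' := by
  unfold corrF
  have hB := cR_pos
  have g1 : x ≤ x' := hxx.trans (by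
    have : s * x' ≤ 1 * x' := mul_le_mul_of_nonneg_right hs1 hx'
    linarith)
  have g2 : y ≤ y' := hyy.trans (by
    have : s * y' ≤ 1 * y' := mul_le_mul_of_nonneg_right hs1 hy'
    linarith)
  have a1 : x^((2:ℝ)/3) ≤ x'^((2:ℝ)/3) := Real.rpow_le_rpow hx g1 (by norm_num)
  have a2 : y^((2:ℝ)/3) ≤ y'^((2:ℝ)/3) := Real.rpow_le_rpow hy g2 (by norm_num)
  have b1 := wp_le_scale j hx hy hs hs1 hxx hyy
  have b2 := wp_le_scale j hy hx hs hs1 hyy hxx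
  have n1 := wp_nonneg (sq_nonneg x) (sq_nonneg y) j
  have n2 := wp_nonneg (sq_nonneg y) (sq_nonneg x) j
  have c1 : y^((2:ℝ)/3) * wp (y^2) (x^2) j ≤ y'^((2:ℝ)/3) * (s^j * wp (y'^2) (x'^2) j) :=
    mul_le_mul a2 b2 n2 (by positivity)
  have c2 : x^((2:ℝ)/3) * wp (x^2) (y^2) j ≤ x'^((2:ℝ)/3) * (s^j * wp (x'^2) (y'^2) j) :=
    mul_le_mul a1 b1 n1 (by positivity)
  calc cR * (y^((2:ℝ)/3) * wp (y^2) (x^2) j + x^((2:ℝ)/3) * wp (x^2) (y^2) j)
      ≤ cR * (y'^((2:ℝ)/3) * (s^j * wp (y'^2) (x'^2) j) +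
          x'^((2:ℝ)/3) * (s^j * wp (x'^2) (y'^2) j)) :=
        mul_le_mul_of_nonneg_left (add_le_add c1 c2) hB.le
    _ = _ := by ring

lemma restF_le (j : ℕ) {x y x' y' s : ℝ} (hx : 0 ≤ x) (hy : 0 ≤ y) (hs : 0 ≤ s) (hs1 : s ≤ 1)
    (hxx : x ≤ s * x') (hyy : y ≤ s * y') :
    restF j x y ≤ ((j:ℝ)+1) * (s^j * (c4 * wp (x'^2) (y'^2) j)) := by
  unfold restF
  have hB := c4_pos
  have h1 := ep_le (sq_nonneg x) (sq_nonneg y) j
  have h2 := wp_le_scale j hx hy hs hs1 hxx hyy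
  have hj : (0:ℝ) ≤ (j:ℝ) + 1 := by positivity
  calc c4 * ep (x^2) (y^2) j ≤ c4 * (((j:ℝ)+1) * wp (x^2) (y^2) j) :=
        mul_le_mul_of_nonneg_left h1 hB.le
    _ ≤ c4 * (((j:ℝ)+1) * (s^j * wp (x'^2) (y'^2) j)) :=
        mul_le_mul_of_nonneg_left (mul_le_mul_of_nonneg_left h2 hj) hB.le
    _ = _ := by ring

lemma wp_lim (j : ℕ) {x y : ℕ → ℝ} {X Y : ℝ} (hx : Tendsto x atTop (𝓝 X))
    (hy : Tendsto y atTop (𝓝 Y)) :
    Tendsto (fun i => wp ((x i)^2) ((y i)^2) j) atTop (𝓝 (wp (X^2) (Y^2) j)) := by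
  unfold wp
  refine tendsto_finsetSum _ fun i _ => ?_
  exact (tendsto_const_nhds.mul ((hy.pow 2).pow i)).mul ((hx.pow 2).pow (j - i))

lemma mainF_lim (j : ℕ) {x y : ℕ → ℝ} {X Y : ℝ} (hx : Tendsto x atTop (𝓝 X))
    (hy : Tendsto y atTop (𝓝 Y)) :
    Tendsto (fun i => mainF j (x i) (y i)) atTop (𝓝 (mainF j X Y)) := by
  unfold mainF ap1
  refine Tendsto.mul (Tendsto.mul ?_ tendsto_const_nhds) ?_
  · exact ((hx.const_mul 2).mul hy).rpow_const (Or.inr (by norm_num))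
  · refine tendsto_finsetSum _ fun i _ => ?_
    exact (tendsto_const_nhds.mul ((hy.pow 2).pow i)).mul ((hx.pow 2).pow (j - i))

lemma corrF_lim (j : ℕ) {x y : ℕ → ℝ} {X Y : ℝ} (hx : Tendsto x atTop (𝓝 X))
    (hy : Tendsto y atTop (𝓝 Y)) :
    Tendsto (fun i => corrF j (x i) (y i)) atTop (𝓝 (corrF j X Y)) := by
  unfold corrF
  refine Tendsto.mul tendsto_const_nhds (Tendsto.add (Tendsto.mul ?_ ?_) (Tendsto.mul ?_ ?_))
  · exact hy.rpow_const (Or.inr (by norm_num))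
  · exact wp_lim j hy hx
  · exact hx.rpow_const (Or.inr (by norm_num))
  · exact wp_lim j hx hy

lemma restF_lim (j : ℕ) {x y : ℕ → ℝ} {X Y : ℝ} (hx : Tendsto x atTop (𝓝 X))
    (hy : Tendsto y atTop (𝓝 Y)) :
    Tendsto (fun i => restF j (x i) (y i)) atTop (𝓝 (restF j X Y)) := by
  unfold restF ep
  refine Tendsto.mul tendsto_const_nhds ?_
  refine tendsto_finsetSum _ fun i _ => ?_
  exact (tendsto_const_nhds.mul ((hy.pow 2).pow i)).mul ((hx.pow 2).pow (j - i))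

/-- the limit function of Cardy's formula -/
noncomputable def Gc (x y : ℝ) : ℝ := cardy (x1 (x^2) (y^2) * (1 - x2 (x^2) (y^2)) /
  (x2 (x^2) (y^2) * (1 - x1 (x^2) (y^2))))

lemma mainF_sum (hF4 : S1_F4) {x y : ℝ} (hx : 0 < x) (hy : 0 < y) (hxy : x + y < 1) :
    HasSum (fun j => mainF j x y) (Gc x y) := hF4 x y hx hy hxy

/-! ### the sum of the corrections -/

lemma rr_symm (A B : ℝ) : rr B A = rr A B := by
  unfold rr
  congr 1
  ring

lemma x1_symm (A B : ℝ) : x1 B A = 1 - x2 A B := by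
  unfold x1 x2
  rw [rr_symm]
  ring

lemma x2_symm (A B : ℝ) : x2 B A = 1 - x1 A B := by
  unfold x1 x2
  rw [rr_symm]
  ring

/-- the limit of the correction -/
noncomputable def Qc (x y : ℝ) : ℝ :=
  cR * (((x1 (x^2) (y^2) * (1 - x1 (x^2) (y^2)))^((1:ℝ)/3) +
    (x2 (x^2) (y^2) * (1 - x2 (x^2) (y^2)))^((1:ℝ)/3)) / (x2 (x^2) (y^2) - x1 (x^2) (y^2)))

lemma two_thirds {x X Y : ℝ} (hx : 0 < x) (hX : 0 < X) (hY : 0 < Y) (h : X * Y = x^2) :
    x^((2:ℝ)/3) = X^((1:ℝ)/3) * Y^((1:ℝ)/3) := by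
  rw [← Real.mul_rpow hX.le hY.le, h, ← Real.rpow_natCast x 2, ← Real.rpow_mul hx.le]
  norm_num

lemma corrF_sum {x y : ℝ} (hx : 0 < x) (hy : 0 < y) (hxy : x + y < 1) :
    HasSum (fun j => corrF j x y) (Qc x y) := by
  obtain ⟨r1, r2, r3, r4, r5⟩ := UGC.roots hx hy hxy
  have h1 := t_WI (x^2) (y^2) (by positivity) (by positivity)
    (by rw [Real.sqrt_sq hx.le, Real.sqrt_sq hy.le]; exact hxy)
  have h2 := t_WI (y^2) (x^2) (by positivity) (by positivity)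
    (by rw [Real.sqrt_sq hx.le, Real.sqrt_sq hy.le]; linarith)
  have h3 := ((h2.mul_left (y^((2:ℝ)/3))).add (h1.mul_left (x^((2:ℝ)/3)))).mul_left cR
  rw [x1_symm (x^2) (y^2), x2_symm (x^2) (y^2)] at h3
  set u := x1 (x^2) (y^2)
  set v := x2 (x^2) (y^2)
  have hu1 : 0 < 1 - u := by linarith
  have hv0 : 0 < v := by linarith
  have hv1 : 0 < 1 - v := by linarith
  have hvu : 0 < v - u := by linarith
  have e1 := two_thirds hx r1 hv0 r4
  have e2 := two_thirds hy hu1 hv1 r5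
  have e3 : v^((1:ℝ)/3) * v^(-(1:ℝ)/3) = 1 := by
    rw [← Real.rpow_add hv0]; norm_num
  have e4 : (1-u)^((1:ℝ)/3) * (1-u)^(-(1:ℝ)/3) = 1 := by
    rw [← Real.rpow_add hu1]; norm_num
  have e5 : (u * (1-u))^((1:ℝ)/3) = u^((1:ℝ)/3) * (1-u)^((1:ℝ)/3) :=
    Real.mul_rpow r1.le hu1.le
  have e6 : (v * (1-v))^((1:ℝ)/3) = v^((1:ℝ)/3) * (1-v)^((1:ℝ)/3) :=
    Real.mul_rpow hv0.le hv1.le
  have hne : v - u ≠ 0 := hvu.ne'
  have key : Qc x y = cR * (y^((2:ℝ)/3) * ((1 - (1 - v))^((1:ℝ)/3) * (1 - u)^(-(1:ℝ)/3) /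
      ((1 - u) - (1 - v))) + x^((2:ℝ)/3) * ((1 - u)^((1:ℝ)/3) * v^(-(1:ℝ)/3) / (v - u))) := by
    rw [show (1 - (1 - v)) = v by ring, show (1 - u - (1 - v)) = v - u by ring]
    show cR * (((u * (1-u))^((1:ℝ)/3) + (v * (1-v))^((1:ℝ)/3)) / (v - u)) = _
    rw [e1, e2, e5, e6]
    linear_combination (-(cR / (v - u) * (u^((1:ℝ)/3) * (1-u)^((1:ℝ)/3)))) * e3 -
      (cR / (v - u) * (v^((1:ℝ)/3) * (1-v)^((1:ℝ)/3))) * e4
  rw [key]
  exact h3

end Pool.Agent.H966.N1
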