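import Pool.Agent.H966.N1.Rc

set_option autoImplicit false

/-!
# The sharp rate, both inner walls, odd widths of the arms (helper966), the theorem.
Adapted from `NH38.Fork.R4` (helper81).
-/

namespace Pool.Agent.H966.N1

open Polynomial Filter Topology Finset
open Pool.Agent.NH38.Step (cardy)
open Pool.Agent.NH38.Fork
open Pool.Agent.NH38.Fork.R4 (Rl SE small cK_pos cM_pos rf_pos exp_le Bt_pos)
open Pool.Agent.H966.T1
open Pool.Agent.H966.T1.A3 (hf M1_pos kap_pos hf_nonneg nj_eq nj_nonneg nj_le)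

/-- the sharp rate, odd widths of the arms, even total width -/
theorem rate (hF4 : S1_F4) (hb1 : ∀ a b : ℕ, Odd a → Odd b → FT a b (a+b+2) ≤ 1)
    {k : ℕ} (hk : 1 ≤ k) (hs : SE k) (a b N : ℕ → ℕ) (ρ σ : ℝ) (hρ : 0 < ρ) (hσ : 0 < σ)
    (hρσ : ρ + σ < 1) (ha : ∀ i, Odd (a i)) (hb : ∀ i, Odd (b i)) (hN : ∀ i, Even (N i))
    (habN : ∀ i, a i + b i < N i) (hNt : Tendsto N atTop atTop)
    (hla : Tendsto (fun i => (a i : ℝ) / N i) atTop (𝓝 ρ))
    (hlb : Tendsto (fun i => (b i : ℝ) / N i) atTop (𝓝 σ)) :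
    Tendsto (fun i => (N i : ℝ)^((2:ℝ)/3) * (((FT (a i) (b i) (N i) : ℚ) : ℝ) -
      Gc ((a i : ℝ) / N i) ((b i : ℝ) / N i))) atTop (𝓝 (Qc ρ σ)) := by
  have hpos := t_pos
  -- `a + b + 2 ≤ N`
  set N0 : ℕ → ℕ := fun i => a i + b i + 2 with hN0
  have hN0e : ∀ i, a i + b i + 2 = N0 i := fun i => rfl
  have hNN : ∀ i, N0 i ≤ N i := fun i => by
    obtain ⟨x, hx⟩ := ha i
    obtain ⟨y, hy⟩ := hb i
    obtain ⟨z, hz⟩ := hN i
    have := habN i
    show a i + b i + 2 ≤ N i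
    omega
  have hN4 : ∀ i, 4 ≤ N i := fun i => by
    have h1 := (ha i).pos
    have h2 := (hb i).pos
    have h3 := hNN i
    have h4 := hN0e i
    omega
  have hNt' : Tendsto (fun i => ((N i : ℕ) : ℝ)) atTop atTop :=
    tendsto_natCast_atTop_atTop.comp hNt
  have hNpos : ∀ i, (0:ℝ) < N i := fun i => by
    have : 0 < N i := by have := hN4 i; omega
    exact_mod_cast this
  have hN1 : ∀ i, (1:ℝ) ≤ N i := fun i => by
    have : 1 ≤ N i := by have := hN4 i; omega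
    exact_mod_cast this
  have ha0 : ∀ i, (0:ℝ) < a i := fun i => by exact_mod_cast (ha i).pos
  have hb0 : ∀ i, (0:ℝ) < b i := fun i => by exact_mod_cast (hb i).pos
  -- the bound `r`
  set r : ℝ := (1 + (ρ + σ)) / 2 with hr
  have hr1 : r < 1 := by rw [hr]; linarith
  have hr0 : 0 < r := by rw [hr]; linarith
  set ε : ℝ := (1 - (ρ + σ)) / 8 with hε
  have hε0 : 0 < ε := by rw [hε]; linarith
  set ρ' : ℝ := (ρ + ε) / r with hρ'
  set σ' : ℝ := (σ + ε) / r with hσ'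
  have hρ'0 : 0 < ρ' := by positivity
  have hσ'0 : 0 < σ' := by positivity
  have hρσ' : ρ' + σ' < 1 := by
    rw [hρ', hσ', ← add_div, div_lt_one hr0, hr, hε]
    linarith
  have hrρ : r * ρ' = ρ + ε := by rw [hρ']; field_simp
  have hrσ : r * σ' = σ + ε := by rw [hσ']; field_simp
  set c : ℝ := min ρ σ / 2 with hc
  have hmin : 0 < min ρ σ := lt_min hρ hσ
  have hc0 : 0 < c := by rw [hc]; linarith
  have hcρ : c < ρ := by
    have := min_le_left ρ σ
    rw [hc]; linarith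
  have hcσ : c < σ := by
    have := min_le_right ρ σ
    rw [hc]; linarith
  -- eventual properties
  have ev : ∀ᶠ i in atTop, (a i : ℝ) / N i < ρ + ε ∧ (b i : ℝ) / N i < σ + ε ∧
      c < (a i : ℝ) / N i ∧ c < (b i : ℝ) / N i ∧ (36:ℝ) ≤ N i ∧
      (N0 i : ℝ) - 3 ≤ r * (N i - 3) := by
    have hcN : Tendsto (fun i => 2 / (N i : ℝ)) atTop (𝓝 0) :=
      Tendsto.div_atTop tendsto_const_nhds hNt'
    have g1 : Tendsto (fun i => ((a i : ℝ) / N i + (b i : ℝ) / N i) + 2 / (N i : ℝ)) atTop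
        (𝓝 ((ρ+σ) + 0)) := (hla.add hlb).add hcN
    have g2 : (ρ+σ) + 0 < r := by rw [hr]; linarith
    filter_upwards [hla.eventually (gt_mem_nhds (by linarith : ρ < ρ + ε)),
      hlb.eventually (gt_mem_nhds (by linarith : σ < σ + ε)),
      hla.eventually (lt_mem_nhds hcρ), hlb.eventually (lt_mem_nhds hcσ),
      hNt'.eventually_ge_atTop 36,
      g1.eventually (gt_mem_nhds g2)]
      with i q1 q2 q3 q4 q5 q8
    refine ⟨q1, q2, q3, q4, q5, ?_⟩
    rw [← add_div, ← add_div, div_lt_iff₀ (hNpos i)] at q8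
    have h3 : (a i : ℝ) + b i + 2 = N0 i := by exact_mod_cast hN0e i
    rw [h3] at q8
    nlinarith
  -- the terms
  let t : ℕ → ℕ → ℝ := fun i j => if j < (a i + b i) / 2 then
    (((sv (a i) * sv (b i)).coeff j * nj (N i) j : ℚ) : ℝ) else 0
  have hcg : ∀ x y j, 0 ≤ (sv x * sv y).coeff j := by
    intro x y j
    rw [Polynomial.coeff_mul]
    exact Finset.sum_nonneg fun p _ => mul_nonneg (hpos x p.1).2 (hpos y p.2).2
  have hsum : ∀ i, HasSum (t i) ((FT (a i) (b i) (N i) : ℚ) : ℝ) := by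
    intro i
    have h1 : HasSum (t i) (∑ j ∈ range ((a i + b i) / 2), t i j) := by
      apply hasSum_sum_of_ne_finset_zero
      intro j hj
      simp only [t]
      rw [if_neg (by rwa [mem_range] at hj)]
    have h2 : ∑ j ∈ range ((a i + b i) / 2), t i j = ((FT (a i) (b i) (N i) : ℚ) : ℝ) := by
      unfold FT
      push_cast
      refine Finset.sum_congr rfl fun j hj => ?_
      simp only [t]
      rw [if_pos (mem_range.mp hj)]
      push_cast
      rfl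
    rwa [h2] at h1
  have hbd0 : ∀ i j, j < (a i + b i) / 2 →
      (((sv (a i) * sv (b i)).coeff j * nj (N0 i) j : ℚ) : ℝ) ≤ 1 := by
    intro i j hj
    have h1 := hb1 (a i) (b i) (ha i) (hb i)
    unfold FT at h1
    have h2 := Finset.single_le_sum (f := fun j => (sv (a i) * sv (b i)).coeff j * nj (N0 i) j)
      (s := range ((a i + b i) / 2)) (fun l hl => mul_nonneg (hcg _ _ _) (nj_nonneg
        (by rw [mem_range] at hl; show 2 * l + 2 ≤ a i + b i + 2; omega))) (mem_range.mpr hj)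
    have h3 : (sv (a i) * sv (b i)).coeff j * nj (N0 i) j ≤ 1 := h2.trans h1
    exact_mod_cast h3
  have ht0 : ∀ i j, 0 ≤ t i j := by
    intro i j
    simp only [t]
    split_ifs with hj
    · have h3 : (0:ℝ) ≤ (((sv (a i) * sv (b i)).coeff j : ℚ) : ℝ) := by exact_mod_cast hcg _ _ _
      have hj2 : 2 * j + 2 ≤ N i := by
        have := hNN i
        have := hN0e i
        omega
      have h4 : (0:ℝ) ≤ ((nj (N i) j : ℚ) : ℝ) := by
        exact_mod_cast nj_nonneg hj2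
      push_cast
      exact mul_nonneg h3 h4
    · exact le_rfl
  have htr : ∀ i, (N0 i : ℝ) - 3 ≤ r * (N i - 3) → ∀ j, t i j ≤ r^j := by
    intro i hi j
    by_cases hj : j < (a i + b i) / 2
    · simp only [t]
      rw [if_pos hj]
      have hj2 : 2 * j + 2 ≤ N0 i := by
        show 2 * j + 2 ≤ a i + b i + 2
        omega
      have h1 := nj_le hj2 (hNN i) hi hr0.le hr1.le
      have h2 := hbd0 i j hj
      have h3 : (0:ℝ) ≤ (((sv (a i) * sv (b i)).coeff j : ℚ) : ℝ) := by exact_mod_cast hcg _ _ _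
      push_cast at h2 ⊢
      calc _ ≤ (((sv (a i) * sv (b i)).coeff j : ℚ) : ℝ) * (r^j * ((nj (N0 i) j : ℚ) : ℝ)) :=
            mul_le_mul_of_nonneg_left h1 h3
        _ = r^j * ((((sv (a i) * sv (b i)).coeff j : ℚ) : ℝ) * ((nj (N0 i) j : ℚ) : ℝ)) := by ring
        _ ≤ r^j * 1 := mul_le_mul_of_nonneg_left h2 (by positivity)
        _ = _ := by ring
    · simp only [t]
      rw [if_neg hj]
      positivity
  -- the uniform estimate
  obtain ⟨C1, hC1, hU⟩ := U hk hs hc0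
  set m : ℕ → ℕ → ℝ := fun i j => mainF j ((a i : ℝ) / N i) ((b i : ℝ) / N i) with hm
  set q : ℕ → ℕ → ℝ := fun i j => corrF j ((a i : ℝ) / N i) ((b i : ℝ) / N i) +
    (N i : ℝ)^(-(2:ℝ)/3) * restF j ((a i : ℝ) / N i) ((b i : ℝ) / N i) with hq
  have hx0 : ∀ i, 0 ≤ (a i : ℝ) / N i := fun i => (div_pos (ha0 i) (hNpos i)).le
  have hy0 : ∀ i, 0 ≤ (b i : ℝ) / N i := fun i => (div_pos (hb0 i) (hNpos i)).le
  have hneg1 : ∀ i, (N i : ℝ)^(-(2:ℝ)/3) ≤ 1 := fun i =>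
    Real.rpow_le_one_of_one_le_of_nonpos (hN1 i) (by norm_num)
  have hneg0 : ∀ i, 0 ≤ (N i : ℝ)^(-(2:ℝ)/3) := fun i => Real.rpow_nonneg (hNpos i).le _
  have hm0 : ∀ i j, 0 ≤ m i j := fun i j => mainF_nonneg j (hx0 i) (hy0 i)
  have hq0 : ∀ i j, 0 ≤ q i j := fun i j =>
    add_nonneg (corrF_nonneg j (hx0 i) (hy0 i)) (mul_nonneg (hneg0 i) (restF_nonneg j _ _))
  have hsqrt : ∀ i, (N i : ℝ)^((2:ℝ)/3) * (N i : ℝ)^(-(2:ℝ)/3) = 1 := fun i => by
    rw [← Real.rpow_add (hNpos i)]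
    norm_num
  have hpw : ∀ i, (N i : ℝ)^((2:ℝ)/3) ≤ N i := fun i => by
    calc (N i : ℝ)^((2:ℝ)/3) ≤ (N i : ℝ)^(1:ℝ) :=
          Real.rpow_le_rpow_of_exponent_le (hN1 i) (by norm_num)
      _ = _ := Real.rpow_one _
  have hpw0 : ∀ i, 0 ≤ (N i : ℝ)^((2:ℝ)/3) := fun i => Real.rpow_nonneg (hNpos i).le _
  have est : ∀ i, c < (a i : ℝ) / N i → c < (b i : ℝ) / N i → (36:ℝ) ≤ N i → ∀ j : ℕ,
      (j+1)^2 ≤ a i → (j+1)^2 ≤ b i →
      |(N i : ℝ)^((2:ℝ)/3) * (t i j - m i j) - q i j| ≤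
        C1 * ((j:ℝ)+1)^(7*k) * ((N i : ℝ)^((2:ℝ)/3) / N i) * (m i j + q i j) := by
    intro i hca hcb hN3 j hja hjb
    have hn36 : 36 ≤ N i := by exact_mod_cast hN3
    have hjn : j < (a i + b i) / 2 := by
      obtain ⟨x, hx⟩ := ha i
      obtain ⟨y, hy⟩ := hb i
      have h2 : j + 1 ≤ (j+1)^2 := Nat.le_self_pow two_ne_zero _
      omega
    have h1 := hU (a i) (b i) (N i) j (ha i) (hb i) (hN i) (habN i)
      ((lt_div_iff₀ (hNpos i)).1 hca).le ((lt_div_iff₀ (hNpos i)).1 hcb).le hn36 hja hjb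
    have ht : t i j = (((sv (a i) * sv (b i)).coeff j * nj (N i) j : ℚ) : ℝ) := if_pos hjn
    rw [← ht] at h1
    have h2 : (N i : ℝ)^((2:ℝ)/3) * (t i j - m i j) - q i j =
        (N i : ℝ)^((2:ℝ)/3) * (t i j - (m i j + (N i : ℝ)^(-(2:ℝ)/3) * q i j)) := by
      linear_combination (q i j) * (hsqrt i)
    rw [h2, abs_mul, abs_of_nonneg (hpw0 i)]
    have h3 : m i j + (N i : ℝ)^(-(2:ℝ)/3) * q i j ≤ m i j + q i j := by
      have := mul_le_mul_of_nonneg_right (hneg1 i) (hq0 i j)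
      linarith
    calc (N i : ℝ)^((2:ℝ)/3) * |t i j - (m i j + (N i : ℝ)^(-(2:ℝ)/3) * q i j)|
        ≤ (N i : ℝ)^((2:ℝ)/3) * (C1 * ((j:ℝ)+1)^(7*k) / N i *
            (m i j + (N i : ℝ)^(-(2:ℝ)/3) * q i j)) := mul_le_mul_of_nonneg_left h1 (hpw0 i)
      _ ≤ (N i : ℝ)^((2:ℝ)/3) * (C1 * ((j:ℝ)+1)^(7*k) / N i * (m i j + q i j)) := by
          apply mul_le_mul_of_nonneg_left _ (hpw0 i)
          apply mul_le_mul_of_nonneg_left h3
          have := hNpos i
          positivity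
      _ = _ := by ring
  -- the sums
  have hxy : ∀ i, (a i : ℝ) / N i + (b i : ℝ) / N i < 1 := fun i => by
    rw [← add_div, div_lt_one (hNpos i)]
    exact_mod_cast habN i
  have hmS : ∀ i, HasSum (m i) (Gc ((a i : ℝ) / N i) ((b i : ℝ) / N i)) :=
    fun i => mainF_sum hF4 (div_pos (ha0 i) (hNpos i)) (div_pos (hb0 i) (hNpos i)) (hxy i)
  -- geometric bounds
  set Cm : ℝ := Gc ρ' σ' with hCm
  set Cq1 : ℝ := Qc ρ' σ' with hCq1
  have hWI := t_WI (ρ'^2) (σ'^2) (by positivity) (by positivity)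
    (by rw [Real.sqrt_sq hρ'0.le, Real.sqrt_sq hσ'0.le]; exact hρσ')
  set Cw : ℝ := (1 - x1 (ρ'^2) (σ'^2))^((1:ℝ)/3) * (x2 (ρ'^2) (σ'^2))^(-(1:ℝ)/3) /
    (x2 (ρ'^2) (σ'^2) - x1 (ρ'^2) (σ'^2)) with hCw
  set Cq : ℝ := Cq1 + c4 * Cw with hCq
  have hmb : ∀ i, (a i : ℝ) / N i < ρ + ε → (b i : ℝ) / N i < σ + ε → ∀ j, m i j ≤ r^j * Cm := by
    intro i h1 h2 j
    have h3 := mainF_le j (x := (a i : ℝ) / N i) (y := (b i : ℝ) / N i) (x' := ρ') (y' := σ')
      (s := r) (hx0 i) (hy0 i) hr0.le hr1.le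
      (by rw [hrρ]; exact h1.le) (by rw [hrσ]; exact h2.le) hρ'0.le hσ'0.le
    have h4 := le_hasSum (mainF_sum hF4 hρ'0 hσ'0 hρσ') j fun l _ => mainF_nonneg l hρ'0.le hσ'0.le
    exact h3.trans (mul_le_mul_of_nonneg_left h4 (by positivity))
  have hCw0 : 0 ≤ Cw := hWI.nonneg fun l => wp_nonneg (by positivity) (by positivity) l
  have hCm0 : 0 ≤ Cm := (mainF_sum hF4 hρ'0 hσ'0 hρσ').nonneg fun l => mainF_nonneg l hρ'0.le hσ'0.le
  have hCq10 : 0 ≤ Cq1 := (corrF_sum hρ'0 hσ'0 hρσ').nonneg fun l => corrF_nonneg l hρ'0.le hσ'0.le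
  have hc40 := c4_pos
  have hCq0 : 0 ≤ Cq := by positivity
  have hqb : ∀ i, (a i : ℝ) / N i < ρ + ε → (b i : ℝ) / N i < σ + ε → ∀ j,
      q i j ≤ ((j:ℝ)+1) * (r^j * Cq) := by
    intro i h1 h2 j
    have hj1 : (1:ℝ) ≤ (j:ℝ) + 1 := by
      have : (0:ℝ) ≤ j := Nat.cast_nonneg j
      linarith
    have h3 := corrF_le j (x := (a i : ℝ) / N i) (y := (b i : ℝ) / N i) (x' := ρ') (y' := σ')
      (s := r) (hx0 i) (hy0 i) hr0.le hr1.le
      (by rw [hrρ]; exact h1.le) (by rw [hrσ]; exact h2.le) hρ'0.le hσ'0.le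
    have h4 := le_hasSum (corrF_sum hρ'0 hσ'0 hρσ') j fun l _ => corrF_nonneg l hρ'0.le hσ'0.le
    have h5 := restF_le j (x := (a i : ℝ) / N i) (y := (b i : ℝ) / N i) (x' := ρ') (y' := σ')
      (s := r) (hx0 i) (hy0 i) hr0.le hr1.le
      (by rw [hrρ]; exact h1.le) (by rw [hrσ]; exact h2.le)
    have h6 := le_hasSum hWI j fun l _ => wp_nonneg (by positivity) (by positivity) l
    have h7 : corrF j ((a i : ℝ) / N i) ((b i : ℝ) / N i) ≤ ((j:ℝ)+1) * (r^j * Cq1) := by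
      calc _ ≤ r^j * corrF j ρ' σ' := h3
        _ ≤ r^j * Cq1 := mul_le_mul_of_nonneg_left h4 (by positivity)
        _ = 1 * (r^j * Cq1) := (one_mul _).symm
        _ ≤ _ := mul_le_mul_of_nonneg_right hj1 (by positivity)
    have h8 : (N i : ℝ)^(-(2:ℝ)/3) * restF j ((a i : ℝ) / N i) ((b i : ℝ) / N i) ≤
        ((j:ℝ)+1) * (r^j * (c4 * Cw)) := by
      calc _ ≤ 1 * restF j ((a i : ℝ) / N i) ((b i : ℝ) / N i) :=
            mul_le_mul_of_nonneg_right (hneg1 i) (restF_nonneg j _ _)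
        _ = restF j ((a i : ℝ) / N i) ((b i : ℝ) / N i) := one_mul _
        _ ≤ ((j:ℝ)+1) * (r^j * (c4 * wp (ρ'^2) (σ'^2) j)) := h5
        _ ≤ _ := by
            apply mul_le_mul_of_nonneg_left _ (by linarith)
            apply mul_le_mul_of_nonneg_left _ (by positivity)
            exact mul_le_mul_of_nonneg_left h6 hc40.le
    calc q i j ≤ ((j:ℝ)+1) * (r^j * Cq1) + ((j:ℝ)+1) * (r^j * (c4 * Cw)) := add_le_add h7 h8
      _ = _ := by rw [hCq]; ring
  -- termwise limits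
  have hnegl : Tendsto (fun i => (N i : ℝ)^(-(2:ℝ)/3)) atTop (𝓝 0) := by
    have h1 : Tendsto (fun i => (N i : ℝ)^(-((2:ℝ)/3))) atTop (𝓝 0) :=
      (tendsto_rpow_neg_atTop (by norm_num)).comp hNt'
    refine h1.congr fun i => ?_
    norm_num
  have hlimq : ∀ j, Tendsto (fun i => q i j) atTop (𝓝 (corrF j ρ σ)) := fun j => by
    have h1 := (corrF_lim j hla hlb).add (hnegl.mul (restF_lim j hla hlb))
    rw [zero_mul, add_zero] at h1
    exact h1
  have hlimm : ∀ j, Tendsto (fun i => m i j) atTop (𝓝 (mainF j ρ σ)) := fun j =>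
    mainF_lim j hla hlb
  have hpow0 : Tendsto (fun i => (N i : ℝ)^((2:ℝ)/3) / N i) atTop (𝓝 0) := by
    have h1 : Tendsto (fun i => (N i : ℝ)^(-((1:ℝ)/3))) atTop (𝓝 0) :=
      (tendsto_rpow_neg_atTop (by norm_num)).comp hNt'
    refine h1.congr fun i => ?_
    have h2 : (N i : ℝ)^(-((1:ℝ)/3)) = (N i : ℝ)^((2:ℝ)/3 - 1) := by norm_num
    rw [h2, Real.rpow_sub (hNpos i), Real.rpow_one]
  have haj : ∀ j : ℕ, ∀ᶠ i in atTop, (j+1)^2 ≤ a i ∧ (j+1)^2 ≤ b i := by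
    intro j
    filter_upwards [ev, hNt'.eventually_ge_atTop ((((j+1)^2 : ℕ) : ℝ) / c)] with i hi hi2
    obtain ⟨-, -, q3, q4, -, -⟩ := hi
    rw [lt_div_iff₀ (hNpos i)] at q3 q4
    rw [div_le_iff₀ hc0] at hi2
    have h1 : (((j+1)^2 : ℕ) : ℝ) ≤ a i := by linarith
    have h2 : (((j+1)^2 : ℕ) : ℝ) ≤ b i := by linarith
    exact ⟨by exact_mod_cast h1, by exact_mod_cast h2⟩
  have hterm : ∀ j, Tendsto (fun i => (N i : ℝ)^((2:ℝ)/3) * (t i j - m i j)) atTop
      (𝓝 (corrF j ρ σ)) := by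
    intro j
    have h1 : Tendsto (fun i => (N i : ℝ)^((2:ℝ)/3) * (t i j - m i j) - q i j) atTop (𝓝 0) := by
      have h2 : Tendsto (fun i => C1 * ((j:ℝ)+1)^(7*k) * ((N i : ℝ)^((2:ℝ)/3) / N i) *
          (m i j + q i j)) atTop (𝓝 (C1 * ((j:ℝ)+1)^(7*k) * 0 *
            (mainF j ρ σ + corrF j ρ σ))) :=
        (hpow0.const_mul _).mul ((hlimm j).add (hlimq j))
      rw [mul_zero, zero_mul] at h2
      refine squeeze_zero_norm' ?_ h2
      filter_upwards [ev, haj j] with i hi hi2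
      rw [Real.norm_eq_abs]
      exact est i hi.2.2.1 hi.2.2.2.1 hi.2.2.2.2.1 j hi2.1 hi2.2
    have h3 := h1.add (hlimq j)
    rw [zero_add] at h3
    exact h3.congr fun i => by ring
  -- dominated convergence
  set K : ℕ := 7*k + 3 with hKK
  set Cb : ℝ := C1 * (Cm + Cq) + Cq + (1 + Cm) / c with hCb
  have hdc : Tendsto (fun i => ∑' j, (N i : ℝ)^((2:ℝ)/3) * (t i j - m i j)) atTop
      (𝓝 (∑' j, corrF j ρ σ)) := by
    refine tendsto_tsum_of_dominated_convergence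
      (bound := fun j => Cb * (((j:ℝ)+1)^K * r^j)) ?_ hterm ?_
    · apply Summable.mul_left
      have h1 := summable_pow_mul_geometric_of_norm_lt_one K (r := r)
        (by rw [Real.norm_of_nonneg hr0.le]; exact hr1)
      have h2 := ((summable_nat_add_iff 1).2 h1).mul_left r⁻¹
      refine h2.congr fun j => ?_
      push_cast
      rw [pow_succ r j]
      field_simp
    · filter_upwards [ev] with i hi j
      obtain ⟨q1, q2, q3, q4, q5, q6⟩ := hi
      rw [Real.norm_eq_abs]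
      have hm1 := hmb i q1 q2 j
      have hq1 := hqb i q1 q2 j
      have ht1 := htr i q6 j
      have hrj : 0 < r^j := by positivity
      have hj1 : (1:ℝ) ≤ (j:ℝ) + 1 := by
        have : (0:ℝ) ≤ j := Nat.cast_nonneg j
        linarith
      have hK1 : ((j:ℝ)+1)^(7*k) * ((j:ℝ)+1) ≤ ((j:ℝ)+1)^K := by
        rw [← pow_succ]
        exact pow_le_pow_right₀ hj1 (by omega)
      have hK2 : ((j:ℝ)+1)^2 ≤ ((j:ℝ)+1)^K := pow_le_pow_right₀ hj1 (by omega)
      have hK3 : ((j:ℝ)+1) ≤ ((j:ℝ)+1)^K := by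
        calc ((j:ℝ)+1) = ((j:ℝ)+1)^1 := (pow_one _).symm
          _ ≤ _ := pow_le_pow_right₀ hj1 (by omega)
      have hcc : 0 ≤ (1 + Cm) / c := by positivity
      by_cases hcase : (j+1)^2 ≤ a i ∧ (j+1)^2 ≤ b i
      · have h1 := est i q3 q4 q5 j hcase.1 hcase.2
        have h2 : |(N i : ℝ)^((2:ℝ)/3) * (t i j - m i j)| ≤
            |(N i : ℝ)^((2:ℝ)/3) * (t i j - m i j) - q i j| + |q i j| := by
          have := abs_add_le ((N i : ℝ)^((2:ℝ)/3) * (t i j - m i j) - q i j) (q i j)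
          rwa [sub_add_cancel] at this
        rw [abs_of_nonneg (hq0 i j)] at h2
        have h3 : (N i : ℝ)^((2:ℝ)/3) / N i ≤ 1 := by
          rw [div_le_one (hNpos i)]
          exact hpw i
        have h4 : C1 * ((j:ℝ)+1)^(7*k) * ((N i : ℝ)^((2:ℝ)/3) / N i) * (m i j + q i j) ≤
            C1 * (((j:ℝ)+1)^K * (r^j * (Cm + Cq))) := by
          have h5 : m i j + q i j ≤ ((j:ℝ)+1) * (r^j * (Cm + Cq)) := by
            have h51 : m i j ≤ ((j:ℝ)+1) * (r^j * Cm) := by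
              calc m i j ≤ 1 * (r^j * Cm) := by rw [one_mul]; exact hm1
                _ ≤ _ := mul_le_mul_of_nonneg_right hj1 (by positivity)
            calc m i j + q i j ≤ ((j:ℝ)+1) * (r^j * Cm) + ((j:ℝ)+1) * (r^j * Cq) :=
                  add_le_add h51 hq1
              _ = _ := by ring
          have h6 : C1 * ((j:ℝ)+1)^(7*k) * ((N i : ℝ)^((2:ℝ)/3) / N i) ≤
              C1 * ((j:ℝ)+1)^(7*k) := by
            calc _ ≤ C1 * ((j:ℝ)+1)^(7*k) * 1 := mul_le_mul_of_nonneg_left h3 (by positivity)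
              _ = C1 * ((j:ℝ)+1)^(7*k) := mul_one _
          calc _ ≤ (C1 * ((j:ℝ)+1)^(7*k)) * (((j:ℝ)+1) * (r^j * (Cm + Cq))) :=
                mul_le_mul h6 h5 (add_nonneg (hm0 i j) (hq0 i j)) (by positivity)
            _ = C1 * ((((j:ℝ)+1)^(7*k) * ((j:ℝ)+1)) * (r^j * (Cm + Cq))) := by ring
            _ ≤ _ := by
              apply mul_le_mul_of_nonneg_left _ hC1
              exact mul_le_mul_of_nonneg_right hK1 (by positivity)
        have h5 : q i j ≤ Cq * (((j:ℝ)+1)^K * r^j) := by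
          calc q i j ≤ ((j:ℝ)+1) * (r^j * Cq) := hq1
            _ ≤ ((j:ℝ)+1)^K * (r^j * Cq) := mul_le_mul_of_nonneg_right hK3 (by positivity)
            _ = _ := by ring
        have h6 : 0 ≤ (1 + Cm) / c * (((j:ℝ)+1)^K * r^j) := by positivity
        have h7 : Cb * (((j:ℝ)+1)^K * r^j) = C1 * (((j:ℝ)+1)^K * (r^j * (Cm + Cq))) +
            Cq * (((j:ℝ)+1)^K * r^j) + (1 + Cm) / c * (((j:ℝ)+1)^K * r^j) := by
          rw [hCb]; ring
        rw [h7]
        linarith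
      · have h1 : c * N i ≤ ((j:ℝ)+1)^2 := by
          rw [lt_div_iff₀ (hNpos i)] at q3 q4
          rw [not_and_or, not_le, not_le] at hcase
          rcases hcase with h | h
          · have : ((a i : ℕ) : ℝ) ≤ (((j+1)^2 : ℕ) : ℝ) := by exact_mod_cast h.le
            push_cast at this
            linarith
          · have : ((b i : ℕ) : ℝ) ≤ (((j+1)^2 : ℕ) : ℝ) := by exact_mod_cast h.le
            push_cast at this
            linarith
        have h2 : (N i : ℝ)^((2:ℝ)/3) ≤ ((j:ℝ)+1)^K / c := by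
          rw [le_div_iff₀ hc0]
          have := mul_le_mul_of_nonneg_right (hpw i) hc0.le
          linarith
        have h3 : |t i j - m i j| ≤ r^j * (1 + Cm) := by
          rw [abs_le]
          have := ht0 i j
          have := hm0 i j
          constructor
          · nlinarith
          · nlinarith
        rw [abs_mul, abs_of_nonneg (hpw0 i)]
        have h4 : (N i : ℝ)^((2:ℝ)/3) * |t i j - m i j| ≤ ((j:ℝ)+1)^K / c * (r^j * (1 + Cm)) :=
          mul_le_mul h2 h3 (abs_nonneg _) (by positivity)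
        have h5 : 0 ≤ (C1 * (Cm + Cq) + Cq) * (((j:ℝ)+1)^K * r^j) := by positivity
        have h6 : Cb * (((j:ℝ)+1)^K * r^j) = (C1 * (Cm + Cq) + Cq) * (((j:ℝ)+1)^K * r^j) +
            ((j:ℝ)+1)^K / c * (r^j * (1 + Cm)) := by
          rw [hCb]; ring
        rw [h6]
        linarith
  rw [(corrF_sum hρ hσ hρσ).tsum_eq] at hdc
  have hts : ∀ i, ∑' j, (N i : ℝ)^((2:ℝ)/3) * (t i j - m i j) = (N i : ℝ)^((2:ℝ)/3) *
      (((FT (a i) (b i) (N i) : ℚ) : ℝ) - Gc ((a i : ℝ) / N i) ((b i : ℝ) / N i)) := by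
    intro i
    exact (((hsum i).sub (hmS i)).mul_left _).tsum_eq
  simp only [hts] at hdc
  exact hdc

end Pool.Agent.H966.N1
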