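import Pool.Agent.H966.N1.Rd
import Pool.Agent.H966.T1.Main
import Pool.Graph.R_pool_sql_team_seeded_3dad9d7b.NH38.Fork.R5

set_option autoImplicit false

/-!
# The sharp rate, both inner walls, all widths of the arms, even width of the slit (helper966).
Adapted from `NH38.Fork.R5` (helper64).
-/

namespace Pool.Agent.H966.N1

open Pool.Agent.H988R2.Perc hiding X
open Pool.Agent.NH38.Step (cardy)
open Pool.Agent.NH38.Fork (x1 x2 rr t_sE)
open Pool.Agent.NH38.Fork.NG4 (disc_pos roots)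
open Pool.Agent.NH38.Step.A2 (cardy_deriv)
open Pool.Agent.NH38.Fork.R5 (lim_of close_of quot_bigO)
open Pool.Agent.NH38.Fork.GF (lim_top)
open Pool.Agent.H966.T1
open Filter Topology MeasureTheory Asymptotics

/-- the limit function is differentiable -/
theorem diff_Gc {ρ σ : ℝ} (hρ : 0 < ρ) (hσ : 0 < σ) (hρσ : ρ + σ < 1) :
    DifferentiableAt ℝ (fun z : ℝ × ℝ => Gc z.1 z.2) (ρ, σ) := by
  have hd := disc_pos hρ hσ hρσ (zero_le_one (α := ℝ)) le_rfl
  obtain ⟨r1, r2, r3, r4, r5⟩ := Pool.Agent.NH38.Fork.UGC.roots hρ hσ hρσ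
  simp only [one_mul] at hd
  have d1 : DifferentiableAt ℝ (fun z : ℝ × ℝ => 1 + z.1^2 - z.2^2) (ρ, σ) := by fun_prop
  have d2 : DifferentiableAt ℝ (fun z : ℝ × ℝ => (1 + z.1^2 - z.2^2)^2 - 4 * z.1^2) (ρ, σ) := by
    fun_prop
  have d3 := d2.sqrt hd.ne'
  have d4 : DifferentiableAt ℝ (fun z : ℝ × ℝ => x1 (z.1^2) (z.2^2)) (ρ, σ) := by
    have d5 := (d1.sub d3).mul_const (1 / 2 : ℝ)
    refine d5.congr_of_eventuallyEq (Eventually.of_forall fun z => ?_)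
    unfold x1 rr
    simp only [Pi.sub_apply]
    ring
  have d4' : DifferentiableAt ℝ (fun z : ℝ × ℝ => x2 (z.1^2) (z.2^2)) (ρ, σ) := by
    have d5 := (d1.add d3).mul_const (1 / 2 : ℝ)
    refine d5.congr_of_eventuallyEq (Eventually.of_forall fun z => ?_)
    unfold x2 rr
    simp only [Pi.add_apply]
    ring
  have hu1 : 0 < 1 - x1 (ρ^2) (σ^2) := by linarith
  have hv0 : 0 < x2 (ρ^2) (σ^2) := by linarith
  have hv1 : 0 < 1 - x2 (ρ^2) (σ^2) := by linarith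
  have hne : x2 (ρ^2) (σ^2) * (1 - x1 (ρ^2) (σ^2)) ≠ 0 := (mul_pos hv0 hu1).ne'
  have d6 : DifferentiableAt ℝ (fun z : ℝ × ℝ => x1 (z.1^2) (z.2^2) * (1 - x2 (z.1^2) (z.2^2)) /
      (x2 (z.1^2) (z.2^2) * (1 - x1 (z.1^2) (z.2^2)))) (ρ, σ) := by
    have k1 : DifferentiableAt ℝ (fun z : ℝ × ℝ => x1 (z.1^2) (z.2^2) *
        (1 - x2 (z.1^2) (z.2^2))) (ρ, σ) := d4.fun_mul (d4'.const_sub 1)
    have k2 : DifferentiableAt ℝ (fun z : ℝ × ℝ => x2 (z.1^2) (z.2^2) *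
        (1 - x1 (z.1^2) (z.2^2))) (ρ, σ) := d4'.fun_mul (d4.const_sub 1)
    have k3 : DifferentiableAt ℝ (fun z : ℝ × ℝ => (x2 (z.1^2) (z.2^2) *
        (1 - x1 (z.1^2) (z.2^2)))⁻¹) (ρ, σ) := k2.fun_inv hne
    have k4 := k1.fun_mul k3
    refine k4.congr_of_eventuallyEq (Eventually.of_forall fun z => ?_)
    exact div_eq_mul_inv _ _
  have g0 : 0 < x1 (ρ^2) (σ^2) * (1 - x2 (ρ^2) (σ^2)) /
      (x2 (ρ^2) (σ^2) * (1 - x1 (ρ^2) (σ^2))) := by positivity
  have g1 : x1 (ρ^2) (σ^2) * (1 - x2 (ρ^2) (σ^2)) /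
      (x2 (ρ^2) (σ^2) * (1 - x1 (ρ^2) (σ^2))) < 1 := by
    rw [div_lt_one (mul_pos hv0 hu1)]
    nlinarith
  have d5 : DifferentiableAt ℝ cardy ((fun z : ℝ × ℝ => x1 (z.1^2) (z.2^2) *
      (1 - x2 (z.1^2) (z.2^2)) / (x2 (z.1^2) (z.2^2) * (1 - x1 (z.1^2) (z.2^2)))) (ρ, σ)) :=
    (cardy_deriv g0 g1).differentiableAt
  exact d5.comp (ρ, σ) d6

theorem FT_le : ∀ a b : ℕ, Odd a → Odd b → FT a b (a+b+2) ≤ 1 := by
  intro a b ha hb
  have h := t_Exact a 0 b ha hb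
  have h1 : perc.real (ECross1 a 0 b) ≤ 1 := measureReal_le_one
  rw [h] at h1
  have h2 : ((FT a b (a+b+2+2*0) : ℚ) : ℝ) ≤ ((1 : ℚ) : ℝ) := by simpa using h1
  exact_mod_cast h2

theorem odd_rate {α γ β K : ℝ} (hα : 0 < α) (hγ : 0 < γ)
    (hβ : 0 < β) {δ : ℕ → ℝ} {a m b : ℕ → ℕ} (hδ : ∀ n, 0 < δ n) (hδ0 : Tendsto δ atTop (𝓝 0))
    (ha : ∀ n, Odd (a n)) (hm : ∀ n, Even (m n)) (hm2 : ∀ n, 2 ≤ m n) (hb : ∀ n, Odd (b n))
    (k1 : ∀ n, |δ n * a n - α| ≤ K * δ n) (k2 : ∀ n, |δ n * m n - γ| ≤ K * δ n)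
    (k3 : ∀ n, |δ n * b n - β| ≤ K * δ n) :
    Tendsto (fun n => (perc.real (FCross1 (a n) (m n) (b n)) -
      Gc (α/(α+γ+β)) (β/(α+γ+β))) / (δ n)^((2:ℝ)/3)) atTop
      (𝓝 (Qc (α/(α+γ+β)) (β/(α+γ+β)) * (α+γ+β)^(-(2:ℝ)/3))) := by
  have hs : 0 < α + γ + β := by positivity
  have h1 := lim_of hδ0 k1
  have h2 := lim_of hδ0 k2
  have h3 := lim_of hδ0 k3
  have hN : Tendsto (fun n => δ n * ((a n + m n + b n : ℕ) : ℝ)) atTop (𝓝 (α + γ + β)) := by
    refine ((h1.add h2).add h3).congr fun n => ?_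
    push_cast
    ring
  have hN' : Tendsto (fun n => a n + m n + b n) atTop atTop := by
    rw [← tendsto_natCast_atTop_iff (R := ℝ)]
    exact lim_top hδ hδ0 hs hN
  have hr : Tendsto (fun n => (a n : ℝ) / ((a n + m n + b n : ℕ) : ℝ)) atTop
      (𝓝 (α / (α + γ + β))) := by
    refine (h1.div hN hs.ne').congr fun n => ?_
    simp only [Pi.div_apply]
    rw [mul_div_mul_left _ _ (hδ n).ne']
  have hr' : Tendsto (fun n => (b n : ℝ) / ((a n + m n + b n : ℕ) : ℝ)) atTop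
      (𝓝 (β / (α + γ + β))) := by
    refine (h3.div hN hs.ne').congr fun n => ?_
    simp only [Pi.div_apply]
    rw [mul_div_mul_left _ _ (hδ n).ne']
  have hρ : 0 < α / (α + γ + β) := by positivity
  have hσ : 0 < β / (α + γ + β) := by positivity
  have hρ1 : α / (α + γ + β) + β / (α + γ + β) < 1 := by
    rw [← add_div, div_lt_one hs]
    linarith
  have L1 := rate (t1_F4 t1_WI) FT_le (k := 3) (by norm_num) t_sE a b
    (fun n => a n + m n + b n) _ _ hρ hσ hρ1 ha hb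
    (fun n => by
      obtain ⟨x, hx⟩ := ha n
      obtain ⟨y, hy⟩ := hb n
      obtain ⟨z, hz⟩ := hm n
      exact ⟨x + y + z + 1, by omega⟩) (fun n => by
      have := hm2 n
      omega) hN' hr hr'
  have hFG : ∀ n, perc.real (FCross1 (a n) (m n) (b n)) =
      ((FT (a n) (b n) (a n + m n + b n) : ℚ) : ℝ) := by
    intro n
    obtain ⟨l, hl⟩ := hm n
    obtain ⟨k, hk⟩ : ∃ k, m n = 2 * k + 2 := ⟨l - 1, by have := hm2 n; omega⟩
    rw [hk, G.cross_eq (ha n), t_Exact (a n) k (b n) (ha n) (hb n),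
      show a n + (2 * k + 2) + b n = a n + b n + 2 + 2 * k by ring]
  -- the first part
  have L2 : Tendsto (fun n => (δ n * ((a n + m n + b n : ℕ) : ℝ))^(-(2:ℝ)/3)) atTop
      (𝓝 ((α + γ + β)^(-(2:ℝ)/3))) := hN.rpow_const (Or.inl hs.ne')
  have L3 := L1.mul L2
  -- the second part
  have b1 : (fun n => δ n * (a n : ℝ) - α) =O[atTop] δ :=
    IsBigO.of_bound K (Eventually.of_forall fun n => by
      rw [Real.norm_eq_abs, Real.norm_eq_abs, abs_of_pos (hδ n)]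
      exact k1 n)
  have b2 : (fun n => δ n * (m n : ℝ) - γ) =O[atTop] δ :=
    IsBigO.of_bound K (Eventually.of_forall fun n => by
      rw [Real.norm_eq_abs, Real.norm_eq_abs, abs_of_pos (hδ n)]
      exact k2 n)
  have b3 : (fun n => δ n * (b n : ℝ) - β) =O[atTop] δ :=
    IsBigO.of_bound K (Eventually.of_forall fun n => by
      rw [Real.norm_eq_abs, Real.norm_eq_abs, abs_of_pos (hδ n)]
      exact k3 n)
  have b4 : (fun n => δ n * ((a n + m n + b n : ℕ) : ℝ) - (α + γ + β)) =O[atTop] δ := by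
    refine ((b1.add b2).add b3).congr (fun n => ?_) fun n => rfl
    push_cast
    ring
  have q1 : (fun n => (a n : ℝ) / ((a n + m n + b n : ℕ) : ℝ) - α / (α + γ + β)) =O[atTop] δ := by
    refine (quot_bigO hs b1 b4 hN).congr (fun n => ?_) fun n => rfl
    rw [mul_div_mul_left _ _ (hδ n).ne']
  have q2 : (fun n => (b n : ℝ) / ((a n + m n + b n : ℕ) : ℝ) - β / (α + γ + β)) =O[atTop] δ := by
    refine (quot_bigO hs b3 b4 hN).congr (fun n => ?_) fun n => rfl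
    rw [mul_div_mul_left _ _ (hδ n).ne']
  have q3 : (fun n => (((a n : ℝ) / ((a n + m n + b n : ℕ) : ℝ),
      (b n : ℝ) / ((a n + m n + b n : ℕ) : ℝ)) : ℝ × ℝ) -
      (α / (α + γ + β), β / (α + γ + β))) =O[atTop] δ := q1.prod_left q2
  have q4 := ((diff_Gc hρ hσ hρ1).isBigO_sub.comp_tendsto (hr.prodMk_nhds hr')).trans q3
  have q5 : δ =o[atTop] fun n => (δ n)^((2:ℝ)/3) := by
    rw [isLittleO_iff_tendsto (fun n hn => by
      exact absurd hn (Real.rpow_pos_of_pos (hδ n) _).ne')]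
    have h5 : Tendsto (fun n => (δ n)^((1:ℝ)/3)) atTop (𝓝 0) := by
      have h6 := hδ0.rpow_const (p := (1:ℝ)/3) (Or.inr (by norm_num))
      rwa [Real.zero_rpow (by norm_num)] at h6
    refine h5.congr fun n => ?_
    rw [eq_div_iff (Real.rpow_pos_of_pos (hδ n) _).ne', ← Real.rpow_add (hδ n)]
    norm_num
  have q6 := (q4.trans_isLittleO q5).tendsto_div_nhds_zero
  have L4 := L3.add q6
  rw [add_zero] at L4
  refine L4.congr fun n => ?_
  rw [hFG n]
  simp only [Function.comp_apply]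
  have hNp : (0 : ℝ) < ((a n + m n + b n : ℕ) : ℝ) := by
    have := hm2 n
    exact_mod_cast (by omega : 0 < a n + m n + b n)
  have e1 : (δ n * ((a n + m n + b n : ℕ) : ℝ))^(-(2:ℝ)/3) =
      ((δ n)^((2:ℝ)/3))⁻¹ * (((a n + m n + b n : ℕ) : ℝ)^((2:ℝ)/3))⁻¹ := by
    rw [Real.mul_rpow (hδ n).le hNp.le, neg_div, Real.rpow_neg (hδ n).le, Real.rpow_neg hNp.le]
  rw [e1]
  have e2 : ((a n + m n + b n : ℕ) : ℝ)^((2:ℝ)/3) ≠ 0 := (Real.rpow_pos_of_pos hNp _).ne'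
  have e3 : (δ n)^((2:ℝ)/3) ≠ 0 := (Real.rpow_pos_of_pos (hδ n) _).ne'
  field_simp
  ring

open Pool.Agent.H863R4 in
/-- the sharp rate, all widths of the arms, even width of the slit. -/
theorem rateP (α γ β K : ℝ) (hα : 0 < α) (hγ : 0 < γ) (hβ : 0 < β) (δ : ℕ → ℝ) (a m b : ℕ → ℕ)
    (hδ : ∀ n, 0 < δ n) (hδ0 : Tendsto δ atTop (𝓝 0)) (hm : ∀ n, Even (m n))
    (ha : ∀ n, |δ n * a n - α| ≤ K * δ n) (hm1 : ∀ n, |δ n * m n - γ| ≤ K * δ n)
    (hb : ∀ n, |δ n * b n - β| ≤ K * δ n) :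
    Tendsto (fun n => (perc.real (FCross1 (a n) (m n) (b n)) -
      Gc (α/(α+γ+β)) (β/(α+γ+β))) / (δ n)^((2:ℝ)/3)) atTop
      (𝓝 (Qc (α/(α+γ+β)) (β/(α+γ+β)) * (α+γ+β)^(-(2:ℝ)/3))) := by
  have a0 := lim_of hδ0 ha
  have m0 := lim_of hδ0 hm1
  have b0 := lim_of hδ0 hb
  have a1 := close_of hδ ha fun n => ou_dist (a n)
  have a2 := close_of hδ ha fun n => od_dist (a n)
  have b1 := close_of hδ hb fun n => ou_dist (b n)
  have b2 := close_of hδ hb fun n => od_dist (b n)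
  have e1 := (lim_top hδ hδ0 hα a0).eventually_ge_atTop 1
  have e2 := (lim_top hδ hδ0 hγ m0).eventually_ge_atTop 2
  have e3 := (lim_top hδ hδ0 hβ b0).eventually_ge_atTop 1
  -- the width of the slit is at least two eventually
  obtain ⟨n0, hn0⟩ := eventually_atTop.1 e2
  have hm2 : ∀ n, 2 ≤ m (n + n0) := fun n => by
    have := hn0 (n + n0) (Nat.le_add_left _ _)
    exact_mod_cast this
  have sh : Tendsto (fun n => n + n0) atTop atTop := tendsto_add_atTop_nat n0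
  rw [← tendsto_add_atTop_iff_nat n0]
  have L1 := odd_rate (δ := fun n => δ (n + n0)) (a := fun n => ou (a (n + n0)))
    (m := fun n => m (n + n0)) (b := fun n => ou (b (n + n0))) hα hγ hβ
    (fun n => hδ (n + n0)) (hδ0.comp sh) (fun n => ou_odd (a (n + n0))) (fun n => hm (n + n0)) hm2
    (fun n => ou_odd (b (n + n0))) (fun n => a1 (n + n0))
    (fun n => (hm1 (n + n0)).trans (by have := (hδ (n + n0)).le; linarith)) (fun n => b1 (n + n0))
  have L2 := odd_rate (δ := fun n => δ (n + n0)) (a := fun n => od (a (n + n0)))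
    (m := fun n => m (n + n0)) (b := fun n => od (b (n + n0))) hα hγ hβ
    (fun n => hδ (n + n0)) (hδ0.comp sh) (fun n => od_odd (a (n + n0))) (fun n => hm (n + n0)) hm2
    (fun n => od_odd (b (n + n0))) (fun n => a2 (n + n0))
    (fun n => (hm1 (n + n0)).trans (by have := (hδ (n + n0)).le; linarith)) (fun n => b2 (n + n0))
  refine tendsto_of_tendsto_of_tendsto_of_le_of_le' L2 L1 ?_ ?_
  · filter_upwards [sh.eventually e1, sh.eventually e3] with n h1 h3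
    have g1 : 1 ≤ a (n + n0) := by exact_mod_cast h1
    have g3 : 1 ≤ b (n + n0) := by exact_mod_cast h3
    refine div_le_div_of_nonneg_right (sub_le_sub_right ?_ _)
      (Real.rpow_pos_of_pos (hδ (n + n0)) _).le
    exact measureReal_mono (G.mono (od_le (by omega)) _ (od_le (by omega)))
  · refine Eventually.of_forall fun n => ?_
    refine div_le_div_of_nonneg_right (sub_le_sub_right ?_ _)
      (Real.rpow_pos_of_pos (hδ (n + n0)) _).le
    exact measureReal_mono (G.mono (le_ou _) _ (le_ou _))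

end Pool.Agent.H966.N1
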