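import Pool.Graph.R_pool_sql_team_seeded_3dad9d7b.NH38.Fork.R7
import Pool.Graph.R_pool_sql_team_seeded_3dad9d7b.NH38.Fork.R2
import Pool.Graph.R_pool_sql_team_seeded_3dad9d7b.NH38.Step.A2f

set_option autoImplicit false

/-!
# The conformal map near the right corner of the slit, and the displaced corners (helper966)
-/

namespace Pool.Agent.H966.N1

open Filter Topology Set
open Pool.Agent.NH38.Fork

/-- the behaviour at the right corner -/
theorem corner_lim' {α γ β x y : ℝ} (H : UGC.Hp α γ β x y) :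
    Tendsto (fun t : ℝ => (γ - (UGC.gg α γ β x y (t : ℂ)).re) / (y - t)^((3:ℝ)/2)) (𝓝[<] y)
      (𝓝 (2 * (α+γ+β) / (3 * Real.pi) * Real.sqrt (y - x) / (y * (1 - y)))) := by
  have hx := H.hx
  have hxy := H.hxy
  have hy := H.hy
  refine HasDerivAt.lhopital_zero_left_on_Ioo
    (f' := fun t : ℝ => -(1 / Real.pi * ((α + γ + β) * (-(√(t - x) * √(y - t)) / (t * (t - 1))))))
    (g' := fun t : ℝ => -((3:ℝ)/2 * (y - t)^((3:ℝ)/2 - 1))) hxy ?_ ?_ ?_ ?_ ?_ ?_
  · intro t ht
    exact (UGC.deriv_re_mid H ht.1 ht.2).const_sub γ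
  · intro t ht
    have h0 : y - t ≠ 0 := (sub_pos.2 ht.2).ne'
    have h1 : HasDerivAt (fun t : ℝ => y - t) (-1) t := (hasDerivAt_id t).const_sub y
    have h2 := h1.rpow_const (p := (3:ℝ)/2) (Or.inl h0)
    simpa using h2
  · intro t ht
    have h0 : 0 < y - t := sub_pos.2 ht.2
    have h1 : 0 < (3:ℝ)/2 * (y - t)^((3:ℝ)/2 - 1) := by positivity
    exact (neg_lt_zero.2 h1).ne
  · have hc : ContinuousOn (fun t : ℝ => (UGC.gg α γ β x y (t : ℂ)).re) (Icc x y) :=
      UGC.cont_re H fun t ht => ⟨by linarith [ht.1], by linarith [ht.2]⟩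
    have h1 : Tendsto (fun t : ℝ => γ - (UGC.gg α γ β x y (t : ℂ)).re) (𝓝[Icc x y] y)
        (𝓝 (γ - (UGC.gg α γ β x y (y : ℂ)).re)) :=
      tendsto_const_nhds.sub (hc y ⟨hxy.le, le_rfl⟩)
    have h2 : (UGC.gg α γ β x y (y : ℂ)).re = γ := by rw [UGC.gg_y H]; rfl
    rw [h2, sub_self] at h1
    refine h1.mono_left ?_
    rw [← nhdsWithin_Ioo_eq_nhdsLT hxy]
    exact nhdsWithin_mono _ Ioo_subset_Icc_self
  · have h1 : ContinuousAt (fun t : ℝ => (y - t)^((3:ℝ)/2)) y := by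
      refine ContinuousAt.rpow_const (by fun_prop) (Or.inr (by norm_num))
    have h2 : (y - y)^((3:ℝ)/2) = 0 := by
      rw [sub_self]
      exact Real.zero_rpow (by norm_num)
    unfold ContinuousAt at h1
    simp only [h2] at h1
    exact h1.mono_left nhdsWithin_le_nhds
  · have h1 : Tendsto (fun t : ℝ => 2 * (α+γ+β) / (3 * Real.pi) * √(t - x) / (t * (1 - t)))
        (𝓝[<] y) (𝓝 (2 * (α+γ+β) / (3 * Real.pi) * √(y - x) / (y * (1 - y)))) := by
      have hc : ContinuousAt (fun t : ℝ => 2 * (α+γ+β) / (3 * Real.pi) * √(t - x) /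
          (t * (1 - t))) y := by
        refine ContinuousAt.div (by fun_prop) (by fun_prop) ?_
        have : 0 < 1 - y := by linarith
        have h0 : 0 < y := by linarith
        positivity
      exact hc.tendsto.mono_left nhdsWithin_le_nhds
    refine h1.congr' ?_
    filter_upwards [Ioo_mem_nhdsLT hxy] with t ht
    have h0 : 0 < y - t := sub_pos.2 ht.2
    have h2 : √(y - t) = (y - t)^((3:ℝ)/2 - 1) := by
      rw [Real.sqrt_eq_rpow]
      norm_num
    have h3 : (y - t)^((3:ℝ)/2 - 1) ≠ 0 := by positivity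
    have h4 : t ≠ 0 := by linarith [ht.1]
    have h5 : 1 - t ≠ 0 := by
      have := ht.2
      intro h
      linarith
    have h6 : t - 1 ≠ 0 := by
      intro h
      apply h5
      linarith
    have h7 := Real.pi_ne_zero
    rw [h2]
    field_simp
    ring

/-- a sequence of points with prescribed values, left corner -/
theorem disp {x y : ℝ} {g : ℝ → ℝ} {Λ lam : ℝ} (hxy : x < y) (hΛ : 0 < Λ) (hl : 0 < lam)
    (hg : StrictMonoOn g (Icc x y)) (hg0 : g x = 0)
    (hL : Tendsto (fun t : ℝ => g t / (t - x)^((3:ℝ)/2)) (𝓝[>] x) (𝓝 Λ))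
    {δ : ℕ → ℝ} (hδ : ∀ n, 0 < δ n) (hδ0 : Tendsto δ atTop (𝓝 0)) {t : ℕ → ℝ}
    (ht : ∀ n, t n ∈ Ioo x y) (hgt : ∀ᶠ n in atTop, g (t n) = lam * δ n) :
    Tendsto (fun n => (t n - x) / (δ n)^((2:ℝ)/3)) atTop (𝓝 ((lam / Λ)^((2:ℝ)/3))) := by
  have h1 : Tendsto t atTop (𝓝 x) := by
    rw [tendsto_order]
    refine ⟨fun a ha => Eventually.of_forall fun n => lt_trans ha (ht n).1, fun a ha => ?_⟩
    obtain ⟨e, he1, he2⟩ : ∃ e, x < e ∧ e < a ∧ e < y := by
      obtain ⟨e, h1, h2⟩ := exists_between (lt_min ha hxy)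
      exact ⟨e, h1, lt_of_lt_of_le h2 (min_le_left _ _), lt_of_lt_of_le h2 (min_le_right _ _)⟩
    have h3 : 0 < g e := by
      have := hg ⟨le_rfl, hxy.le⟩ ⟨he1.le, he2.2.le⟩ he1
      rwa [hg0] at this
    have h4 : Tendsto (fun n => lam * δ n) atTop (𝓝 0) := by
      have := hδ0.const_mul lam
      rwa [mul_zero] at this
    filter_upwards [hgt, h4.eventually_lt_const h3] with n hn1 hn2
    rw [← hn1] at hn2
    exact lt_trans ((hg.lt_iff_lt ⟨(ht n).1.le, (ht n).2.le⟩ ⟨he1.le, he2.2.le⟩).1 hn2) he2.1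
  have h2 : Tendsto t atTop (𝓝[>] x) :=
    tendsto_nhdsWithin_iff.2 ⟨h1, Eventually.of_forall fun n => (ht n).1⟩
  have h3 := (hL.comp h2).inv₀ hΛ.ne'
  have h4 := (h3.const_mul lam).rpow_const (p := (2:ℝ)/3) (Or.inr (by norm_num))
  rw [← div_eq_mul_inv] at h4
  refine h4.congr' ?_
  filter_upwards [hgt] with n hn
  have hp : 0 < t n - x := sub_pos.2 (ht n).1
  simp only [Function.comp_apply]
  rw [hn]
  have e1 : lam * (lam * δ n / (t n - x)^((3:ℝ)/2))⁻¹ = (t n - x)^((3:ℝ)/2) / δ n := by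
    have := (hδ n).ne'
    field_simp
  rw [e1, Real.div_rpow (by positivity) (hδ n).le, ← Real.rpow_mul hp.le]
  norm_num

/-- a sequence of points with prescribed values, right corner -/
theorem disp' {x y : ℝ} {g : ℝ → ℝ} {Λ lam G : ℝ} (hxy : x < y) (hΛ : 0 < Λ) (hl : 0 < lam)
    (hg : StrictMonoOn g (Icc x y)) (hg0 : g y = G)
    (hL : Tendsto (fun t : ℝ => (G - g t) / (y - t)^((3:ℝ)/2)) (𝓝[<] y) (𝓝 Λ))
    {δ : ℕ → ℝ} (hδ : ∀ n, 0 < δ n) (hδ0 : Tendsto δ atTop (𝓝 0)) {t : ℕ → ℝ}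
    (ht : ∀ n, t n ∈ Ioo x y) (hgt : ∀ᶠ n in atTop, g (t n) = G - lam * δ n) :
    Tendsto (fun n => (y - t n) / (δ n)^((2:ℝ)/3)) atTop (𝓝 ((lam / Λ)^((2:ℝ)/3))) := by
  have h := disp (x := -y) (y := -x) (g := fun s => G - g (-s)) (Λ := Λ) (lam := lam)
    (by linarith) hΛ hl ?_ ?_ ?_ hδ hδ0 (t := fun n => - t n) ?_ ?_
  · refine h.congr fun n => ?_
    congr 1
    ring
  · intro a ha b hb hab
    have := hg (a := -b) (b := -a) ⟨by linarith [hb.2], by linarith [hb.1]⟩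
      ⟨by linarith [ha.2], by linarith [ha.1]⟩ (by linarith)
    simp only
    linarith
  · simp only [neg_neg]
    rw [hg0, sub_self]
  · have h2 : Tendsto (fun s : ℝ => -s) (𝓝[>] (-y)) (𝓝[<] y) := by
      have := tendsto_neg_nhdsGT (a := -y)
      rwa [neg_neg] at this
    refine (hL.comp h2).congr fun s => ?_
    simp only [Function.comp_apply]
    congr 2
    ring
  · intro n
    exact ⟨by linarith [(ht n).2], by linarith [(ht n).1]⟩
  · filter_upwards [hgt] with n hn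
    simp only [neg_neg]
    rw [hn]
    ring

/-- the chain rule along a sequence -/
theorem chain {h : ℝ → ℝ} {h' p D : ℝ} (hd : HasDerivAt h h' p) {u e : ℕ → ℝ}
    (he : ∀ n, 0 < e n) (he0 : Tendsto e atTop (𝓝 0))
    (hu : Tendsto (fun n => (u n - p) / e n) atTop (𝓝 D)) :
    Tendsto (fun n => (h (u n) - h p) / e n) atTop (𝓝 (h' * D)) := by
  have h1 : Tendsto u atTop (𝓝 p) := by
    have h2 := (hu.mul he0).add_const p
    rw [mul_zero, zero_add] at h2
    refine h2.congr fun n => ?_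
    have := (he n).ne'
    field_simp
    ring
  have h2 : (fun n => u n - p) =O[atTop] e := by
    refine Asymptotics.isBigO_of_div_tendsto_nhds (Eventually.of_forall fun n hn => ?_) D hu
    exact absurd hn (he n).ne'
  have h3 := (hd.isLittleO.comp_tendsto h1).trans_isBigO h2
  have h4 := h3.tendsto_div_nhds_zero
  have h5 := h4.add (hu.const_mul h')
  rw [zero_add] at h5
  refine h5.congr fun n => ?_
  simp only [Function.comp_apply, smul_eq_mul]
  have := (he n).ne'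
  field_simp
  ring

end Pool.Agent.H966.N1
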