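import Pool.Agent.H966.N1.Rg
import Pool.Agent.H966.N1.Re
import Pool.Graph.R_pool_sql_team_seeded_3dad9d7b.NH38.Fork.R1
import Pool.Graph.R_pool_sql_team_seeded_3dad9d7b.NH38.Fork.R6
import Pool.Graph.R_pool_sql_team_seeded_3dad9d7b.NH38.Fork.GMain

set_option autoImplicit false

/-!
# The constants, and the displaced corners (helper966)
-/

namespace Pool.Agent.H966.N1

open Filter Topology Set
open Pool.Agent.NH38.Step (cardy)
open Pool.Agent.NH38.Step.A2
open Pool.Agent.NH38.Fork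
open Pool.Agent.H757R2.CardyLimit (gd beta_int)
open Pool.Agent.H966.T1

theorem BB_eq : BB = Real.Gamma (1/3) * Real.Gamma (1/3) / Real.Gamma (2/3) := by
  have h := (beta_int (α := 1/3) (β := 1/3) (by norm_num) (by norm_num)).2
  rw [show (1/3 + 1/3 : ℝ) = 2/3 by norm_num] at h
  rw [← h]
  unfold BB
  refine intervalIntegral.integral_congr fun t ht => ?_
  rw [uIcc_of_le zero_le_one] at ht
  show (t * (1 - t)) ^ (-(2/3) : ℝ) = _
  rw [Real.mul_rpow ht.1 (by linarith [ht.2])]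
  norm_num

theorem cR_eq : cR = 1 / Real.Gamma (1/3) := by
  have h := Real.Gamma_mul_Gamma_add_half (1/3)
  rw [show (1/3 + 1/2 : ℝ) = 5/6 by norm_num, show (2 * (1/3) : ℝ) = 2/3 by norm_num,
    show (1 - 2/3 : ℝ) = 1/3 by norm_num] at h
  have p1 : 0 < Real.Gamma (1/3) := Real.Gamma_pos_of_pos (by norm_num)
  have p2 : 0 < Real.Gamma (2/3) := Real.Gamma_pos_of_pos (by norm_num)
  have p3 : 0 < √Real.pi := Real.sqrt_pos.2 Real.pi_pos
  unfold cR cM
  rw [Real.Gamma_one_half_eq]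
  have e : (2:ℝ)^(-(1:ℝ)/3) * 2^((1:ℝ)/3) = 1 := by
    rw [← Real.rpow_add (by norm_num)]
    norm_num
  rw [eq_div_iff p1.ne', mul_div_assoc', div_mul_eq_mul_div, div_eq_iff (by positivity)]
  calc (2:ℝ)^(-(1:ℝ)/3) * Real.Gamma (5/6) * Real.Gamma (1/3)
      = 2^(-(1:ℝ)/3) * (Real.Gamma (1/3) * Real.Gamma (5/6)) := by ring
    _ = ((2:ℝ)^(-(1:ℝ)/3) * 2^((1:ℝ)/3)) * (√Real.pi * Real.Gamma (2/3)) := by
        rw [h]; ring
    _ = _ := by rw [e]

theorem c4_eq : c4 = 1 / (3 * Real.Gamma (2/3)) := by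
  have h := cKc4
  rw [cR_eq] at h
  unfold cK at h
  have e : Real.Gamma (4/3) = 1/3 * Real.Gamma (1/3) := by
    rw [show (4/3 : ℝ) = 1/3 + 1 by norm_num, Real.Gamma_add_one (by norm_num)]
  have p1 : 0 < Real.Gamma (1/3) := Real.Gamma_pos_of_pos (by norm_num)
  have p2 : 0 < Real.Gamma (2/3) := Real.Gamma_pos_of_pos (by norm_num)
  rw [e] at h
  field_simp at h
  field_simp
  linarith

/-- the displacement of the corners, in lattice units -/
noncomputable def lam : ℝ := 2 / (3 * Real.pi) * (Real.Gamma (1/3) / Real.Gamma (2/3))^((3:ℝ)/2)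

theorem lam_pos : 0 < lam := by
  unfold lam
  have p1 : 0 < Real.Gamma (1/3) := Real.Gamma_pos_of_pos (by norm_num)
  have p2 : 0 < Real.Gamma (2/3) := Real.Gamma_pos_of_pos (by norm_num)
  have := Real.pi_pos
  positivity

/-- the coefficient of the conformal map at the left corner -/
noncomputable def Lm (S x y : ℝ) : ℝ := 2 * S / (3 * Real.pi) * √(y - x) / (x * (1 - x))

/-- the displacement in the half-plane -/
theorem lam_div {S x y p : ℝ} (hS : 0 < S) (hxy : x < y) (hp : 0 < p) :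
    (lam / (2 * S / (3 * Real.pi) * √(y - x) / p))^((2:ℝ)/3) =
      cR * BB * S^(-(2:ℝ)/3) * (y - x)^(-(1:ℝ)/3) * p^((2:ℝ)/3) := by
  have p1 : 0 < Real.Gamma (1/3) := Real.Gamma_pos_of_pos (by norm_num)
  have p2 : 0 < Real.Gamma (2/3) := Real.Gamma_pos_of_pos (by norm_num)
  have hpi := Real.pi_pos
  have hd : 0 < y - x := sub_pos.2 hxy
  have hs : 0 < √(y - x) := Real.sqrt_pos.2 hd
  have e1 : cR * BB = Real.Gamma (1/3) / Real.Gamma (2/3) := by
    rw [cR_eq, BB_eq]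
    field_simp
  rw [e1]
  set G := Real.Gamma (1/3) / Real.Gamma (2/3) with hG
  have hG0 : 0 < G := div_pos p1 p2
  have e2 : lam / (2 * S / (3 * Real.pi) * √(y - x) / p) = G^((3:ℝ)/2) * p / (S * √(y - x)) := by
    unfold lam
    rw [← hG]
    field_simp
  rw [e2, Real.div_rpow (by positivity) (by positivity), Real.mul_rpow (by positivity) hp.le,
    Real.mul_rpow hS.le hs.le, ← Real.rpow_mul hG0.le, Real.sqrt_eq_rpow, ← Real.rpow_mul hd.le,
    show (3:ℝ)/2 * (2/3) = 1 by norm_num, Real.rpow_one, show (1:ℝ)/2 * (2/3) = 1/3 by norm_num,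
    neg_div, neg_div, Real.rpow_neg hS.le, Real.rpow_neg hd.le]
  have h1 : 0 < S^((2:ℝ)/3) := by positivity
  have h2 : 0 < (y - x)^((1:ℝ)/3) := by positivity
  field_simp

/-- the identity of the constants -/
theorem const_id {S x y : ℝ} (hS : 0 < S) (hx : 0 < x) (hxy : x < y) (hy : y < 1) :
    gd (x * (1 - y) / (y * (1 - x))) / BB *
      ((y * (1 - y) * (cR * BB * S^(-(2:ℝ)/3) * (y - x)^(-(1:ℝ)/3) * (x * (1 - x))^((2:ℝ)/3)) +
        x * (1 - x) * (cR * BB * S^(-(2:ℝ)/3) * (y - x)^(-(1:ℝ)/3) * (y * (1 - y))^((2:ℝ)/3))) /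
        (y * (1 - x))^2) =
    cR * (((x * (1 - x))^((1:ℝ)/3) + (y * (1 - y))^((1:ℝ)/3)) / (y - x)) * S^(-(2:ℝ)/3) := by
  have hB := BB_pos
  have h1x : 0 < 1 - x := by linarith
  have h1y : 0 < 1 - y := by linarith
  have hy0 : 0 < y := by linarith
  have hd : 0 < y - x := sub_pos.2 hxy
  set P := x * (1 - x) with hP
  set Q := y * (1 - y) with hQ
  have hP0 : 0 < P := by positivity
  have hQ0 : 0 < Q := by positivity
  have e1 : gd (x * (1 - y) / (y * (1 - x))) = P^(-(2:ℝ)/3) * Q^(-(2:ℝ)/3) * (y - x)^(-(2:ℝ)/3) *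
      (y * (1 - x))^2 := by
    unfold gd
    have e2 : x * (1 - y) / (y * (1 - x)) * (1 - x * (1 - y) / (y * (1 - x))) =
        P * Q * (y - x) * ((y * (1 - x))^3)⁻¹ := by
      rw [hP, hQ]
      field_simp
      ring
    rw [e2, Real.mul_rpow (by positivity) (by positivity), Real.mul_rpow (by positivity) hd.le,
      Real.mul_rpow hP0.le hQ0.le, Real.inv_rpow (by positivity), ← Real.rpow_natCast _ 3,
      ← Real.rpow_mul (by positivity), ← Real.rpow_neg (by positivity), ← Real.rpow_natCast _ 2]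
    norm_num
  have e3 : P^(-(2:ℝ)/3) * P^((2:ℝ)/3) = 1 := by
    rw [← Real.rpow_add hP0]; norm_num
  have e4 : Q^(-(2:ℝ)/3) * Q^((2:ℝ)/3) = 1 := by
    rw [← Real.rpow_add hQ0]; norm_num
  have e5 : P^(-(2:ℝ)/3) * P = P^((1:ℝ)/3) := by
    have := Real.rpow_add hP0 (-(2:ℝ)/3) 1
    rw [Real.rpow_one] at this
    rw [← this]
    norm_num
  have e6 : Q^(-(2:ℝ)/3) * Q = Q^((1:ℝ)/3) := by
    have := Real.rpow_add hQ0 (-(2:ℝ)/3) 1
    rw [Real.rpow_one] at this
    rw [← this]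
    norm_num
  have e7 : (y - x)^(-(2:ℝ)/3) * (y - x)^(-(1:ℝ)/3) = (y - x)⁻¹ := by
    rw [← Real.rpow_add hd, ← Real.rpow_neg_one]
    norm_num
  rw [e1]
  have hn : (y * (1 - x))^2 ≠ 0 := by positivity
  calc _ = (cR * S^(-(2:ℝ)/3)) * ((y - x)^(-(2:ℝ)/3) * (y - x)^(-(1:ℝ)/3)) *
      ((Q^(-(2:ℝ)/3) * Q) * (P^(-(2:ℝ)/3) * P^((2:ℝ)/3)) +
        (P^(-(2:ℝ)/3) * P) * (Q^(-(2:ℝ)/3) * Q^((2:ℝ)/3))) := by
        field_simp
    _ = _ := by
        rw [e3, e4, e5, e6, e7]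
        field_simp
        ring

/-- the same for the crossing from the inner wall of the left arm to the right wall -/
theorem const_id1 {S x y : ℝ} (hS : 0 < S) (hx : 0 < x) (hxy : x < y) (hy : y < 1) :
    gd x / BB * (cR * BB * S^(-(2:ℝ)/3) * (y - x)^(-(1:ℝ)/3) * (x * (1 - x))^((2:ℝ)/3)) =
    cR * (y - x)^(-(1:ℝ)/3) * S^(-(2:ℝ)/3) := by
  have hB := BB_pos
  have h1x : 0 < 1 - x := by linarith
  set P := x * (1 - x) with hP
  have hP0 : 0 < P := by positivity
  have e1 : gd x = P^(-(2:ℝ)/3) := by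
    unfold gd
    rw [hP]
    norm_num
  have e3 : P^(-(2:ℝ)/3) * P^((2:ℝ)/3) = 1 := by
    rw [← Real.rpow_add hP0]; norm_num
  rw [e1]
  calc _ = (cR * S^(-(2:ℝ)/3) * (y - x)^(-(1:ℝ)/3)) * (P^(-(2:ℝ)/3) * P^((2:ℝ)/3)) := by
        field_simp
    _ = _ := by rw [e3]; ring

/-- the cross-ratio of the displaced corners -/
theorem cross_lim {x y E E' : ℝ} (hx : 0 < x) (hxy : x < y) (hy : y < 1) {e t t' : ℕ → ℝ}
    (he : ∀ n, 0 < e n) (he0 : Tendsto e atTop (𝓝 0)) (ht : ∀ n, t n ∈ Ioo x y)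
    (ht' : ∀ n, t' n ∈ Ioo x y)
    (h1 : Tendsto (fun n => (t n - x) / e n) atTop (𝓝 E))
    (h2 : Tendsto (fun n => (y - t' n) / e n) atTop (𝓝 E')) :
    Tendsto (fun n => (t n * (1 - t' n) / (t' n * (1 - t n)) - x * (1 - y) / (y * (1 - x))) / e n)
      atTop (𝓝 ((y * (1 - y) * E + x * (1 - x) * E') / (y * (1 - x))^2)) := by
  have h1x : 0 < 1 - x := by linarith
  have hy0 : 0 < y := by linarith
  have l1 : Tendsto (fun n => t n - x) atTop (𝓝 0) := by
    have h3 := h1.mul he0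
    rw [mul_zero] at h3
    refine h3.congr fun n => ?_
    have := (he n).ne'
    field_simp
  have l2 : Tendsto (fun n => y - t' n) atTop (𝓝 0) := by
    have h3 := h2.mul he0
    rw [mul_zero] at h3
    refine h3.congr fun n => ?_
    have := (he n).ne'
    field_simp
  have l3 : Tendsto t' atTop (𝓝 y) := by
    have h3 := l2.const_sub y
    rw [sub_zero] at h3
    refine h3.congr fun n => by ring
  have l4 : Tendsto (fun n => 1 - t n) atTop (𝓝 (1 - x)) := by
    have h3 := l1.const_sub (1 - x)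
    rw [sub_zero] at h3
    refine h3.congr fun n => by ring
  have l5 : Tendsto (fun n => (t' n * (1 - t n)) * (y * (1 - x))) atTop (𝓝 ((y * (1 - x))^2)) := by
    have h3 := (l3.mul l4).mul_const (y * (1 - x))
    rwa [← sq] at h3
  have l6 : Tendsto (fun n => y * (1 - y) * ((t n - x) / e n) + x * (1 - x) * ((y - t' n) / e n) +
      (y - x) * ((t n - x) / e n) * (y - t' n)) atTop
      (𝓝 (y * (1 - y) * E + x * (1 - x) * E')) := by
    have h3 := ((h1.const_mul (y * (1 - y))).add (h2.const_mul (x * (1 - x)))).add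
      ((h1.const_mul (y - x)).mul l2)
    rwa [mul_zero, add_zero] at h3
  refine (l6.div l5 (by positivity)).congr fun n => ?_
  have g1 := (he n).ne'
  have g2 : 0 < t' n := by linarith [(ht' n).1]
  have g3 : 0 < 1 - t n := by linarith [(ht n).2]
  simp only [Pi.div_apply]
  field_simp
  ring

end Pool.Agent.H966.N1
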